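import Mathlib

set_option autoImplicit false

namespace Pool.Agent.H.MP_60a66a_gt

open Set Filter Topology MeasureTheory

theorem prim {E F : Type*} [NormedAddCommGroup E] [NormedSpace ℝ E] [NormedAddCommGroup F]
    [NormedSpace ℝ F] [CompleteSpace F] {f : E → F} {f' : E → E →L[ℝ] F} {x : E}
    (hf : ∀ᶠ y in 𝓝 x, HasFDerivAt f (f' y) y) (ha : AnalyticAt ℝ f' x) : AnalyticAt ℝ f x := by
  obtain ⟨p, r0, hp0⟩ := ha
  obtain ⟨ε, e0, he⟩ := Metric.eventually_nhds_iff_ball.1 hf
  have hp : HasFPowerSeriesOnBall f' p x (min r0 (ENNReal.ofReal ε)) :=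
    hp0.mono (lt_min hp0.r_pos (ENNReal.ofReal_pos.2 e0)) (min_le_left _ _)
  set r := min r0 (ENNReal.ofReal ε)
  let q : FormalMultilinearSeries ℝ E (E →L[ℝ] F) := fun n => ((n:ℝ) + 1)⁻¹ • p n
  have sm : ∀ y : E, y ∈ Metric.eball (0:E) r → ∀ t ∈ Set.uIcc (0:ℝ) 1,
      t • y ∈ Metric.eball (0:E) r := fun y hy t ht => by
    rw [uIcc_of_le zero_le_one] at ht
    rw [mem_eball_zero_iff] at hy ⊢
    refine lt_of_le_of_lt ?_ hy
    rw [enorm_smul]
    refine mul_le_of_le_one_left' ?_
    rw [← ofReal_norm_eq_enorm, Real.norm_eq_abs, abs_of_nonneg ht.1]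
    exact ENNReal.ofReal_le_one.2 ht.2
  have hg : HasFPowerSeriesOnBall (fun y => ∫ t in (0:ℝ)..1, f' (x + t • (y - x))) q x r := by
    refine ⟨hp.r_le.trans (FormalMultilinearSeries.radius_le_of_le fun n => ?_), hp.r_pos,
      fun {y} hy => ?_⟩
    · rw [norm_smul, norm_inv, Real.norm_eq_abs, abs_of_pos (by positivity)]
      exact mul_le_of_le_one_left (norm_nonneg _)
        (inv_le_one_of_one_le₀ (by linarith [Nat.cast_nonneg (α := ℝ) n]))
    · have k := intervalIntegral.hasSum_integral_of_dominated_convergence (μ := volume) (a := 0)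
        (b := 1) (F := fun n t => t ^ n • p n fun _ => y) (f := fun t => f' (x + t • y))
        (fun n _ => ‖p n fun _ => y‖)
        (fun n => (by fun_prop : Continuous fun t : ℝ => t ^ n • p n fun _ => y).aestronglyMeasurable)
        (fun n => ae_of_all _ fun t ht => by
          rw [uIoc_of_le zero_le_one] at ht
          rw [norm_smul, norm_pow, Real.norm_eq_abs, abs_of_pos ht.1]
          exact mul_le_of_le_one_left (norm_nonneg _) (pow_le_one₀ ht.1.le ht.2))
        (ae_of_all _ fun t _ => p.summable_norm_apply (Metric.eball_subset_eball hp.r_le hy))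
        intervalIntegrable_const
        (ae_of_all _ fun t ht => by
          have := hp.hasSum (sm y hy t (uIoc_subset_uIcc ht))
          simpa only [ContinuousMultilinearMap.map_smul_univ, Finset.prod_const, Finset.card_univ,
            Fintype.card_fin] using this)
      simpa [intervalIntegral.integral_smul_const, q] using k
  refine (hg.unshift (z := f x)).analyticAt.congr ?_
  filter_upwards [Metric.eball_mem_nhds x hp.r_pos] with y hy
  have hy' : y - x ∈ Metric.eball (0:E) r := by
    rwa [mem_eball_zero_iff, ← edist_eq_enorm_sub]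
  have c : ContinuousOn (fun t : ℝ => f' (x + t • (y - x))) (uIcc 0 1) :=
    hp.continuousOn.comp (by fun_prop) fun t ht => by
      have := sm _ hy' t ht
      rw [mem_eball_zero_iff] at this
      rwa [Metric.mem_eball, edist_eq_enorm_sub, add_sub_cancel_left]
  rw [ContinuousLinearMap.intervalIntegral_apply c.intervalIntegrable,
    intervalIntegral.integral_eq_sub_of_hasDerivAt (f := fun t : ℝ => f (x + t • (y - x)))]
  · simp
  · intro t ht
    have := sm _ hy' t ht
    rw [mem_eball_zero_iff, ← ofReal_norm_eq_enorm] at this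
    have m : x + t • (y - x) ∈ Metric.ball x ε := by
      rw [mem_ball_iff_norm, add_sub_cancel_left]
      exact (ENNReal.ofReal_lt_ofReal_iff e0).1 (this.trans_le (min_le_right _ _))
    exact (he _ m).comp_hasDerivAt t (by
      simpa using ((hasDerivAt_id t).smul_const (y - x)).const_add x)
  · exact (c.clm_apply continuousOn_const).intervalIntegrable

theorem glob {F : Type*} [NormedAddCommGroup F] [NormedSpace ℝ F] {f : ℂ → F} {x : ℂ} {n : ℕ}
    (h : ContDiffAt ℝ n f x) : ∃ g : ℂ → F, ContDiff ℝ n g ∧ g =ᶠ[𝓝 x] f := by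
  obtain ⟨ε, e0, he⟩ := Metric.eventually_nhds_iff_ball.1 (h.eventually (by simp))
  let b : ContDiffBump x := ⟨ε / 4, ε / 2, by linarith, by linarith⟩
  refine ⟨fun y => b y • f y, contDiff_iff_contDiffAt.2 fun y => ?_, ?_⟩
  · by_cases hy : y ∈ Metric.ball x ε
    · exact (b.contDiff.contDiffAt (n := n)).smul (he y hy)
    · refine (contDiffAt_const (c := (0:F))).congr_of_eventuallyEq ?_
      have : ∀ᶠ z in 𝓝 y, ε / 2 < dist z x :=
        ContinuousAt.eventually_lt continuousAt_const (by fun_prop)
          (by rw [Metric.mem_ball] at hy; linarith)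
      filter_upwards [this] with z hz
      rw [b.zero_of_le_dist hz.le, zero_smul]
  · filter_upwards [b.eventuallyEq_one] with y hy
    rw [hy, Pi.one_apply, one_smul]

theorem dInt {H H' : ℝ → ℝ → ℝ} (c : Continuous ↿H) (c' : Continuous ↿H')
    (d : ∀ ε t, HasDerivAt (H · t) (H' ε t) ε) (a b : ℝ) :
    HasDerivAt (fun ε => ∫ t in a..b, H ε t) (∫ t in a..b, H' 0 t) 0 := by
  obtain ⟨C, hC⟩ := ((isCompact_closedBall (0:ℝ) 1).prod (isCompact_uIcc (a := a)
    (b := b))).exists_bound_of_continuousOn c'.continuousOn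
  exact (intervalIntegral.hasDerivAt_integral_of_dominated_loc_of_deriv_le (μ := volume)
    (s := Metric.ball 0 1) (bound := fun _ => C) (Metric.ball_mem_nhds _ one_pos)
    (Eventually.of_forall fun ε => (c.uncurry_left ε).aestronglyMeasurable)
    ((c.uncurry_left 0).intervalIntegrable _ _) (c'.uncurry_left 0).aestronglyMeasurable
    (ae_of_all _ fun t ht ε hε => hC (ε, t) ⟨Metric.ball_subset_closedBall hε, uIoc_subset_uIcc ht⟩)
    intervalIntegrable_const (ae_of_all _ fun t _ ε _ => d ε t)).2

theorem dbr {A B : ℝ → ℝ} (cA : Continuous A) (cB : Continuous B) {a b : ℝ} (ab : a < b)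
    (h : ∀ χ χ' : ℝ → ℝ, Continuous χ' → (∀ t, HasDerivAt χ (χ' t) t) → χ a = 0 → χ b = 0 →
      ∫ t in a..b, (A t * χ t + B t * χ' t) = 0) {t : ℝ} (ht : t ∈ Ioo a b) :
    HasDerivAt B (A t) t := by
  set P := fun s => ∫ u in a..s, A u
  have dP : ∀ s, HasDerivAt P (A s) s := fun s => (cA.integral_hasStrictDerivAt a s).hasDerivAt
  have cP : Continuous P := continuous_iff_continuousAt.2 fun s => (dP s).continuousAt
  set m := (∫ u in a..b, (B u - P u)) / (b - a)
  set χ' := fun u => B u - P u - m
  have c' : Continuous χ' := by fun_prop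
  set χ := fun s => ∫ u in a..s, χ' u
  have dχ : ∀ s, HasDerivAt χ (χ' s) s := fun s => (c'.integral_hasStrictDerivAt a s).hasDerivAt
  have cχ : Continuous χ := continuous_iff_continuousAt.2 fun s => (dχ s).continuousAt
  have za : χ a = 0 := by simp [χ]
  have zb : χ b = 0 := by
    simp only [χ, χ']
    rw [intervalIntegral.integral_sub (f := fun u => B u - P u) (g := fun _ => m)
      ((cB.sub cP).intervalIntegrable _ _) intervalIntegrable_const,
      intervalIntegral.integral_const, smul_eq_mul, mul_div_cancel₀ _ (by linarith), sub_self]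
  have k := h χ χ' c' dχ za zb
  have ip := intervalIntegral.integral_eq_sub_of_hasDerivAt (a := a) (b := b)
    (f := fun s => (P s + m) * χ s) (f' := fun s => A s * χ s + (P s + m) * χ' s)
    (fun s _ => ((dP s).add_const m).mul (dχ s)) ((by fun_prop : Continuous _).intervalIntegrable _ _)
  rw [za, zb, mul_zero, mul_zero, sub_zero] at ip
  have z : ∫ s in a..b, χ' s ^ 2 = 0 := by
    have := intervalIntegral.integral_sub (μ := volume) (a := a) (b := b)
      (f := fun t => A t * χ t + B t * χ' t) (g := fun s => A s * χ s + (P s + m) * χ' s)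
      ((by fun_prop : Continuous _).intervalIntegrable _ _)
      ((by fun_prop : Continuous _).intervalIntegrable _ _)
    rw [k, ip, sub_zero] at this
    rw [← this]
    exact intervalIntegral.integral_congr fun s _ => by simp only [χ']; ring
  have e : ∀ s ∈ Ioo a b, χ' s = 0 := fun s hs => by
    by_contra hn
    exact (intervalIntegral.integral_pos ab (f := fun s => χ' s ^ 2) (by fun_prop)
      (fun _ _ => sq_nonneg _) ⟨s, Ioo_subset_Icc_self hs, by positivity⟩).ne' z
  refine ((dP t).add_const m).congr_of_eventuallyEq ?_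
  filter_upwards [isOpen_Ioo.mem_nhds ht] with s hs
  have := e s hs
  simp only [χ'] at this
  linarith

end Pool.Agent.H.MP_60a66a_gt
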