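import Pool.Agent.H.MP_60a66a_gt.A

set_option autoImplicit false

namespace Pool.Agent.H.MP_60a66a_gt

open Set Filter Topology MeasureTheory

theorem dl {E : Type*} [NormedAddCommGroup E] [NormedSpace ℝ E] (w e : E) (t : ℝ) :
    HasDerivAt (fun t : ℝ => w + t • e) e t := by
  simpa using ((hasDerivAt_id t).smul_const e).const_add w

variable {F : Type*} [NormedAddCommGroup F] [InnerProductSpace ℝ F]

theorem geo {ψ : ℂ → F} {k j : ℂ → ℂ} (cψ : ContDiff ℝ 2 ψ) (ck : ContDiff ℝ 1 k)
    (cj : ContDiff ℝ 1 j) {U W : Set ℂ} (oU : IsOpen U) (oW : IsOpen W)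
    (hU : ∀ x ∈ U, ∀ v, ‖fderiv ℝ k x v‖ = ‖fderiv ℝ ψ x v‖) (hW : ∀ w ∈ W, j w ∈ U ∧ k (j w) = w)
    {w : ℂ} (hw : w ∈ W) (e v : ℂ) :
    HasDerivAt (fun t : ℝ => inner ℝ (fderiv ℝ ψ (j (w + t • e)) (fderiv ℝ j (w + t • e) e))
      (fderiv ℝ ψ (j (w + t • e)) v))
      (inner ℝ (fderiv ℝ ψ (j w) (fderiv ℝ j w e))
        (fderiv ℝ (fderiv ℝ ψ) (j w) v (fderiv ℝ j w e))) 0 := by
  set D := fderiv ℝ ψ
  set D2 := fderiv ℝ D
  have c1 : ContDiff ℝ 1 D := cψ.fderiv_right (by norm_num)
  have cD : Continuous D := c1.continuous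
  have cD2 : Continuous D2 := c1.continuous_fderiv one_ne_zero
  have cj0 := cj.continuous
  have cj1 : Continuous (fderiv ℝ j) := cj.continuous_fderiv one_ne_zero
  have ck1 : Continuous (fderiv ℝ k) := ck.continuous_fderiv one_ne_zero
  have dk : ∀ x, HasFDerivAt k (fderiv ℝ k x) x := fun x =>
    (ck.differentiable one_ne_zero x).hasFDerivAt
  obtain ⟨η, η0, hη⟩ := Metric.nhds_basis_closedBall.mem_iff.1
    ((by fun_prop : Continuous fun t : ℝ => w + t • e).continuousAt.preimage_mem_nhds
      (x := 0) (oW.mem_nhds (by simpa using hw)))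
  have m : ∀ t ∈ uIcc (-η) η, w + t • e ∈ W := fun t ht => hη (by
    rw [uIcc_of_le (by linarith)] at ht
    rw [mem_closedBall_zero_iff, Real.norm_eq_abs, abs_le]; exact ht)
  set x := fun t : ℝ => j (w + t • e)
  set x' := fun t : ℝ => fderiv ℝ j (w + t • e) e
  have dx : ∀ t, HasDerivAt x (x' t) t := fun t =>
    (cj.differentiable one_ne_zero _).hasFDerivAt.comp_hasDerivAt t (dl w e t)
  have cx : Continuous x := by fun_prop
  have cx' : Continuous x' := by fun_prop
  have := dbr (A := fun t => inner ℝ (D (x t) (x' t)) (D2 (x t) v (x' t)))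
    (B := fun t => inner ℝ (D (x t) (x' t)) (D (x t) v)) (by fun_prop) (by fun_prop)
    (a := -η) (b := η) (by linarith) (fun χ χ' c' dχ za zb => ?_) (t := 0) ⟨by linarith, η0⟩
  · simpa [x, x'] using this
  have cχ : Continuous χ := continuous_iff_continuousAt.2 fun s => (dχ s).continuousAt
  set y := fun ε t : ℝ => x t + ε • χ t • v
  set y' := fun ε t : ℝ => x' t + ε • χ' t • v
  have cy : Continuous fun p : ℝ × ℝ => y p.1 p.2 := by fun_prop
  have cy' : Continuous fun p : ℝ × ℝ => y' p.1 p.2 := by fun_prop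
  have dI := dInt (H := fun ε t => ‖D (y ε t) (y' ε t)‖ ^ 2)
    (H' := fun ε t => 2 * inner ℝ (D (y ε t) (y' ε t))
      (D2 (y ε t) (χ t • v) (y' ε t) + D (y ε t) (χ' t • v)))
    (by unfold Function.HasUncurry.uncurry; exact ((cD.comp cy).clm_apply cy').norm.pow 2)
    (continuous_const.mul (((cD.comp cy).clm_apply cy').inner
      ((((cD2.comp cy).clm_apply (by fun_prop)).clm_apply cy').add
        ((cD.comp cy).clm_apply (by fun_prop)))))
    (fun ε t => HasDerivAt.norm_sq (HasDerivAt.clm_apply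
      ((c1.differentiable one_ne_zero _).hasFDerivAt.comp_hasDerivAt ε (dl (x t) (χ t • v) ε))
      (dl (x' t) (χ' t • v) ε))) (-η) η
  have e0 : ∀ t ∈ uIcc (-η) η, fderiv ℝ k (x t) (x' t) = e := fun t ht => by
    refine ((dk _).comp_hasDerivAt t (dx t)).unique (HasDerivAt.congr_of_eventuallyEq
      (dl w e t) ?_)
    filter_upwards [(by fun_prop : Continuous fun t : ℝ => w + t • e).continuousAt.preimage_mem_nhds
      (oW.mem_nhds (m t ht))] with s hs using (hW _ hs).2
  have z := IsLocalMin.hasDerivAt_eq_zero ?_ dI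
  · rw [intervalIntegral.integral_const_mul, mul_eq_zero] at z
    rw [← z.resolve_left two_ne_zero]
    refine intervalIntegral.integral_congr fun t _ => ?_
    simp only [y, y', zero_smul, add_zero, map_smul, ContinuousLinearMap.smul_apply, inner_add_right,
      inner_smul_right]
    ring
  have ev : ∀ᶠ ε in 𝓝 (0:ℝ), ∀ t ∈ uIcc (-η) η, y ε t ∈ U :=
    isCompact_uIcc.eventually_forall_of_forall_eventually fun t ht =>
      cy.continuousAt.preimage_mem_nhds (oU.mem_nhds (by
        simp only [y, zero_smul, add_zero]; exact (hW _ (m t ht)).1))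
  filter_upwards [ev] with ε hε
  have dc : ∀ t, HasDerivAt (fun t => inner ℝ e (k (y ε t))) (inner ℝ e
      (fderiv ℝ k (y ε t) (y' ε t))) t := fun t => by
    have := (hasDerivAt_const t e).inner ℝ ((dk (y ε t)).comp_hasDerivAt t (f := y ε)
      ((dx t).add (((dχ t).smul_const v).const_smul ε)))
    rw [inner_zero_left, add_zero] at this
    exact this
  have cc : Continuous fun t => fderiv ℝ k (y ε t) (y' ε t) :=
    (ck1.comp (cy.uncurry_left ε)).clm_apply (cy'.uncurry_left ε)
  have i1 := intervalIntegral.integral_eq_sub_of_hasDerivAt (a := -η) (b := η) (fun t _ => dc t)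
    ((continuous_const.inner cc).intervalIntegrable _ _)
  simp only [y, za, zb, zero_smul, smul_zero, add_zero, x, (hW _ (m _ left_mem_uIcc)).2,
    (hW _ (m _ right_mem_uIcc)).2, inner_add_right, inner_smul_right,
    real_inner_self_eq_norm_sq] at i1
  have i0 : ∫ t in -η..η, ‖D (y 0 t) (y' 0 t)‖ ^ 2 = ∫ t in -η..η,
      (2 * inner ℝ e (fderiv ℝ k (y ε t) (y' ε t)) - ‖e‖ ^ 2) := by
    rw [intervalIntegral.integral_congr (g := fun _ => ‖e‖ ^ 2) fun t ht => by
      simp only [y, y', zero_smul, add_zero]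
      rw [← hU _ (hW _ (m t ht)).1, e0 t ht],
      intervalIntegral.integral_sub ((continuous_const.mul (continuous_const.inner cc)).intervalIntegrable
        _ _) intervalIntegrable_const, intervalIntegral.integral_const_mul]
    simp only [y, x]
    rw [i1]
    simp only [intervalIntegral.integral_const, smul_eq_mul]
    ring
  show ∫ t in -η..η, ‖D (y 0 t) (y' 0 t)‖ ^ 2 ≤ _
  rw [i0]
  refine intervalIntegral.integral_mono_on (by linarith)
    (((continuous_const.mul (continuous_const.inner cc)).sub continuous_const).intervalIntegrable _ _)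
    ((((cD.comp (cy.uncurry_left ε)).clm_apply (cy'.uncurry_left ε)).norm.pow 2).intervalIntegrable
      _ _) fun t ht => ?_
  rw [← hU _ (hε t (by rwa [uIcc_of_le (by linarith)]))]
  have := norm_sub_sq_real e (fderiv ℝ k (y ε t) (y' ε t))
  nlinarith [sq_nonneg ‖e - fderiv ℝ k (y ε t) (y' ε t)‖]

end Pool.Agent.H.MP_60a66a_gt
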