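import Pool.Agent.H.MP_60a66a_gt.B

set_option autoImplicit false

namespace Pool.Agent.H.MP_60a66a_gt

open Set Filter Topology Complex

variable {F : Type*} [NormedAddCommGroup F] [InnerProductSpace ℝ F] [CompleteSpace F]

theorem sq_an {y g : ℂ → ℝ} {x : ℂ} (c : ContinuousAt y x) (n : y x ≠ 0) (a : AnalyticAt ℝ g x)
    (e : ∀ᶠ z in 𝓝 x, y z ^ 2 = g z) : AnalyticAt ℝ y x := by
  have s : AnalyticAt ℝ (fun z => √(g z)) x :=
    (Real.contDiffAt_sqrt (n := ⊤) (by rw [← e.self_of_nhds]; positivity)).analyticAt.comp a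
  rcases lt_or_gt_of_ne n with h | h
  · refine s.neg.congr ?_
    filter_upwards [e, c.eventually (gt_mem_nhds h)] with z a b
    rw [Pi.neg_apply, ← a, Real.sqrt_sq_eq_abs, abs_of_neg b, neg_neg]
  · refine s.congr ?_
    filter_upwards [e, c.eventually (lt_mem_nhds h)] with z a b
    rw [← a, Real.sqrt_sq b.le]

omit [CompleteSpace F] in
theorem polar {G : Type*} [NormedAddCommGroup G] [InnerProductSpace ℝ G] {S : ℂ →L[ℝ] G}
    {T : ℂ →L[ℝ] F} (h : ∀ v, ‖S v‖ = ‖T v‖) (a b : ℂ) :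
    inner ℝ (S a) (S b) = inner ℝ (T a) (T b) := by
  rw [real_inner_eq_norm_add_mul_self_sub_norm_mul_self_sub_norm_mul_self_div_two,
    real_inner_eq_norm_add_mul_self_sub_norm_mul_self_sub_norm_mul_self_div_two, ← map_add,
    ← map_add, h, h, h]

theorem clm_eq {G : Type*} [NormedAddCommGroup G] [NormedSpace ℝ G] (S : ℂ →L[ℝ] G) (v : ℂ) :
    S v = v.re • S 1 + v.im • S I := by
  rw [← map_smul, ← map_smul, ← map_add]; simp

noncomputable def cb {G : Type*} [NormedAddCommGroup G] [NormedSpace ℝ G] :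
    (G × G) →L[ℝ] ℂ →L[ℝ] G :=
  (ContinuousLinearMap.smulRightL ℝ ℂ G reCLM).coprod (ContinuousLinearMap.smulRightL ℝ ℂ G imCLM)

theorem cb_eq {G : Type*} [NormedAddCommGroup G] [NormedSpace ℝ G] (S : ℂ →L[ℝ] G) :
    cb (S 1, S I) = S := by
  ext v; rw [clm_eq S v]; simp [cb]

structure Is (k : ℂ → ℂ) (ψ : ℂ → F) (x : ℂ) : Prop where
  ck : ContDiffAt ℝ 1 k x
  an : AnalyticAt ℝ ψ x
  inj : Function.Injective (fderiv ℝ ψ x)
  iso : ∀ᶠ z in 𝓝 x, ∀ v, ‖fderiv ℝ k z v‖ = ‖fderiv ℝ ψ z v‖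

variable {k : ℂ → ℂ} {ψ : ℂ → F} {x : ℂ}

theorem Is.ev (h : Is k ψ x) : ∀ᶠ z in 𝓝 x, Is k ψ z := by
  filter_upwards [h.ck.eventually (by simp), h.an.eventually_analyticAt, h.iso.eventually_nhds,
    h.an.fderiv.continuousAt.preimage_mem_nhds
      (ContinuousLinearMap.isOpen_injective.mem_nhds h.inj)] with z a b c d using ⟨a, b, d, c⟩

omit [CompleteSpace F] in
theorem Is.injk (h : Is k ψ x) : Function.Injective (fderiv ℝ k x) :=
  (injective_iff_map_eq_zero _).2 fun v hv => (injective_iff_map_eq_zero _).1 h.inj v (by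
    rw [← norm_eq_zero, ← h.iso.self_of_nhds, hv, norm_zero])

theorem an_ip {G : Type*} [NormedAddCommGroup G] [NormedSpace ℝ G] {f g : G → F} {x : G}
    (a : AnalyticAt ℝ f x) (b : AnalyticAt ℝ g x) :
    AnalyticAt ℝ (fun z => inner ℝ (f z) (g z)) x :=
  ((innerSL ℝ (E := F)).analyticAt_bilinear _).comp₂ a b

theorem an_ap {G H : Type*} [NormedAddCommGroup G] [NormedSpace ℝ G] [NormedAddCommGroup H]
    [NormedSpace ℝ H] {f : G → ℂ →L[ℝ] H} {g : G → ℂ} {x : G}
    (a : AnalyticAt ℝ f x) (b : AnalyticAt ℝ g x) : AnalyticAt ℝ (fun z => f z (g z)) x :=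
  ((ContinuousLinearMap.id ℝ (ℂ →L[ℝ] H)).analyticAt_bilinear _).comp₂ a b

theorem Is.gram (h : Is k ψ x) (a b : ℂ) :
    AnalyticAt ℝ (fun z => inner ℝ (fderiv ℝ k z a) (fderiv ℝ k z b)) x :=
  (an_ip (an_ap h.an.fderiv analyticAt_const) (an_ap h.an.fderiv analyticAt_const)).congr
    (h.iso.mono fun _ e => (polar e a b).symm)

theorem an_re {G : Type*} [NormedAddCommGroup G] [NormedSpace ℝ G] {f : G → ℂ} {x : G}
    (a : AnalyticAt ℝ f x) : AnalyticAt ℝ (fun z => (f z).re) x := (reCLM.analyticAt _).comp a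

theorem an_im {G : Type*} [NormedAddCommGroup G] [NormedSpace ℝ G] {f : G → ℂ} {x : G}
    (a : AnalyticAt ℝ f x) : AnalyticAt ℝ (fun z => (f z).im) x := (imCLM.analyticAt _).comp a

theorem an_of {G : Type*} [NormedAddCommGroup G] [NormedSpace ℝ G] {f : G → ℝ} {x : G}
    (a : AnalyticAt ℝ f x) : AnalyticAt ℝ (fun z => (f z : ℂ)) x := (ofRealCLM.analyticAt _).comp a

omit [CompleteSpace F] in
theorem Is.p0 (h : Is k ψ x) : fderiv ℝ k x 1 ≠ 0 :=
  fun e => one_ne_zero ((injective_iff_map_eq_zero _).1 h.injk 1 e)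

theorem Is.lam (h : Is k ψ x) : AnalyticAt ℝ (fun z => fderiv ℝ k z I / fderiv ℝ k z 1) x ∧
    (fderiv ℝ k x I / fderiv ℝ k x 1).im ≠ 0 := by
  have n : (fderiv ℝ k x I / fderiv ℝ k x 1).im ≠ 0 := fun e => by
    have := (injective_iff_map_eq_zero _).1 h.injk (I - (fderiv ℝ k x I / fderiv ℝ k x 1).re • 1) (by
      rw [map_sub, map_smul, real_smul, conj_eq_iff_re.1 (conj_eq_iff_im.2 e),
        div_mul_cancel₀ _ h.p0, sub_self])
    simpa using congrArg im this
  have c := h.ck.continuousAt_fderiv one_ne_zero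
  have a := sq_an (y := fun z => (fderiv ℝ k z I * (starRingEnd ℂ) (fderiv ℝ k z 1)).im)
    (continuous_im.continuousAt.comp ((c.clm_apply continuousAt_const).mul
      (continuous_conj.continuousAt.comp (c.clm_apply continuousAt_const))))
    (fun e => n (by rw [div_eq_mul_inv, inv_def, ← mul_assoc, im_mul_ofReal, e, zero_mul]))
    (((h.gram 1 1).mul (h.gram I I)).sub ((h.gram 1 I).pow 2)) (Eventually.of_forall fun z => by
      simp [Complex.inner, -inner_self_eq_norm_sq_to_K]; ring)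
  refine ⟨(((an_of (h.gram 1 I)).add ((an_of a).mul (analyticAt_const (v := I)))).div (an_of (h.gram 1 1))
    (by simpa using h.p0)).congr (h.ev.mono fun z hz => ?_), n⟩
  have := hz.p0
  simp only [Pi.div_apply, Pi.add_apply, Pi.mul_apply]
  rw [div_eq_div_iff (by simpa using this) this]
  apply Complex.ext <;> simp [Complex.inner, -inner_self_eq_norm_sq_to_K] <;> ring

theorem Is.dp (h : Is k ψ x) : DifferentiableAt ℝ (fun z => fderiv ℝ k z 1) x := by
  obtain ⟨ψ1, cψ, eψ⟩ := glob (n := 2) (h.an.contDiffAt)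
  obtain ⟨k1, ck, ek⟩ := glob (n := 1) h.ck
  let L : ℂ ≃L[ℝ] ℂ := (LinearEquiv.ofInjectiveEndo (fderiv ℝ k x).toLinearMap
    h.injk).toContinuousLinearEquiv
  have dk : HasFDerivAt k (L : ℂ →L[ℝ] ℂ) x := (h.ck.differentiableAt one_ne_zero).hasFDerivAt
  obtain ⟨j, cj, ej⟩ := glob (n := 1) (h.ck.to_localInverse dk one_ne_zero)
  have sk := h.ck.hasStrictFDerivAt' dk one_ne_zero
  have jk : ∀ᶠ z in 𝓝 x, j (k z) = z := by
    filter_upwards [sk.eventually_left_inverse, h.ck.continuousAt.eventually ej] with z a b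
    rw [b]; exact a
  have jx := jk.self_of_nhds
  obtain ⟨U, hU, oU, xU⟩ := eventually_nhds_iff.1
    (h.ev.and (ek.eventually_nhds.and eψ.eventually_nhds))
  have tj : Tendsto j (𝓝 (k x)) (𝓝 x) := by simpa [jx] using cj.continuous.tendsto (k x)
  obtain ⟨W, hW, oW, xW⟩ := eventually_nhds_iff.1 ((tj.eventually (oU.mem_nhds xU)).and
    (sk.eventually_right_inverse.and ej))
  have hW' : ∀ w ∈ W, j w ∈ U ∧ k1 (j w) = w := fun w hw => ⟨(hW w hw).1, by
    rw [(hU _ (hW w hw).1).2.1.self_of_nhds, (hW w hw).2.2]; exact (hW w hw).2.1⟩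
  have e1 : ∀ z ∈ U, fderiv ℝ k1 z = fderiv ℝ k z := fun z hz =>
    EventuallyEq.fderiv_eq (hU z hz).2.1
  have iso : ∀ z ∈ U, ∀ v, ‖fderiv ℝ k1 z v‖ = ‖fderiv ℝ ψ1 z v‖ := fun z hz v => by
    rw [e1 z hz, EventuallyEq.fderiv_eq (hU z hz).2.2, (hU z hz).1.iso.self_of_nhds]
  have kj : ∀ w ∈ W, ∀ e, fderiv ℝ k1 (j w) (fderiv ℝ j w e) = e := fun w hw e => by
    have := ((ck.differentiable one_ne_zero (j w)).hasFDerivAt.comp w
      (cj.differentiable one_ne_zero w).hasFDerivAt).unique ((hasFDerivAt_id w).congr_of_eventuallyEq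
        (by filter_upwards [oW.mem_nhds hw] with s hs using (hW' s hs).2))
    exact congrArg (· e) this
  have c1 : ContDiff ℝ 1 (fderiv ℝ ψ1) := cψ.fderiv_right (by norm_num)
  have cD := c1.continuous
  have cD2 := c1.continuous_fderiv one_ne_zero
  have cj0 := cj.continuous
  have cj1 := cj.continuous_fderiv one_ne_zero
  have ck1 := ck.continuous_fderiv one_ne_zero
  set lm := fun z => fderiv ℝ k z I / fderiv ℝ k z 1
  have key : ∀ e : ℂ, e ≠ 0 → ∃ P' : ℂ → ℂ, ContinuousAt P' (k x) ∧ ∀ᶠ w in 𝓝 (k x),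
      HasDerivAt (fun t : ℝ => fderiv ℝ k (j (w + t • e)) 1) (P' w) 0 := fun e e0 => by
    let G : ℂ × ℝ × ℝ → ℂ := fun u =>
      (u.2.1 + ((((lm u.1).re * u.2.1 - u.2.2) / (lm u.1).im : ℝ) : ℂ) * I) / (starRingEnd ℂ) e
    let c : ℂ → ℂ × ℝ × ℝ := fun w =>
      (j w, inner ℝ e (fderiv ℝ k1 (j w) 1), inner ℝ e (fderiv ℝ k1 (j w) I))
    let A : ℂ → ℂ → ℝ := fun v w => inner ℝ (fderiv ℝ ψ1 (j w) (fderiv ℝ j w e))
        (fderiv ℝ (fderiv ℝ ψ1) (j w) v (fderiv ℝ j w e))
    have cc : Continuous c := by fun_prop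
    have aG : AnalyticAt ℝ G (c (k x)) := by
      have a : AnalyticAt ℝ (fun u : ℂ × ℝ × ℝ => lm u.1) (c (k x)) :=
        AnalyticAt.comp_of_eq h.lam.1 analyticAt_fst jx
      have a1 : AnalyticAt ℝ (fun u : ℂ × ℝ × ℝ => u.2.1) (c (k x)) :=
        analyticAt_fst.comp analyticAt_snd
      have a2 : AnalyticAt ℝ (fun u : ℂ × ℝ × ℝ => u.2.2) (c (k x)) :=
        analyticAt_snd.comp analyticAt_snd
      exact ((an_of a1).add ((an_of ((((an_re a).mul a1).sub a2).div (an_im a)
        (by simpa [c, jx] using h.lam.2))).mul analyticAt_const)).div analyticAt_const (by simpa)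
    refine ⟨fun w => fderiv ℝ G (c w) (fderiv ℝ j w e, A 1 w, A I w),
      (aG.fderiv.continuousAt.comp cc.continuousAt).clm_apply (by fun_prop), ?_⟩
    filter_upwards [oW.mem_nhds xW, cc.continuousAt.eventually aG.eventually_analyticAt] with w hw a
    have ev : ∀ᶠ t : ℝ in 𝓝 0, w + t • e ∈ W :=
      (by fun_prop : Continuous fun t : ℝ => w + t • e).continuousAt.preimage_mem_nhds
        (oW.mem_nhds (by simpa using hw))
    have g : ∀ v, HasDerivAt (fun t : ℝ => inner ℝ e (fderiv ℝ k1 (j (w + t • e)) v)) (A v w) 0 :=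
      fun v => (geo cψ ck cj oU oW iso hW' hw e v).congr_of_eventuallyEq (ev.mono fun t ht => by
        simp only
        rw [← polar (iso _ (hW' _ ht).1), kj _ ht])
    have dc : HasDerivAt (fun t : ℝ => c (w + t • e)) (fderiv ℝ j w e, A 1 w, A I w) 0 :=
      HasDerivAt.prodMk ((cj.differentiable one_ne_zero w).hasFDerivAt.comp_hasDerivAt_of_eq 0
        (dl w e 0) (by simp)) ((g 1).prodMk (g I))
    refine (a.differentiableAt.hasFDerivAt.comp_hasDerivAt_of_eq 0 dc
      (by simp)).congr_of_eventuallyEq (ev.mono fun t ht => ?_)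
    have hz := (hU _ (hW' _ ht).1).1
    have n := hz.lam.2
    have q : fderiv ℝ k (j (w + t • e)) I = lm (j (w + t • e)) * fderiv ℝ k (j (w + t • e)) 1 :=
      (div_mul_cancel₀ _ hz.p0).symm
    simp only [Function.comp, G, c, e1 _ (hW' _ ht).1, q]
    rw [eq_div_iff (by simpa)]
    change (lm _).im ≠ 0 at n
    generalize lm (j (w + t • e)) = l at n ⊢
    apply Complex.ext <;> simp [Complex.inner, -inner_self_eq_norm_sq_to_K]
    field_simp
    ring
  obtain ⟨P1, c1, d1⟩ := key 1 one_ne_zero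
  obtain ⟨P2, c2, d2⟩ := key I I_ne_zero
  let T : ℝ × ℝ → ℂ := fun u => k x + u.1 • 1 + u.2 • I
  have tT : Tendsto T (𝓝 0) (𝓝 (k x)) := by
    simpa [T] using (by fun_prop : Continuous T).tendsto 0
  have sm : Continuous fun v : ℂ => ContinuousLinearMap.toSpanSingleton ℝ v :=
    (ContinuousLinearMap.smulRightL ℝ ℝ ℂ 1).continuous
  have := hasStrictFDerivAt_uncurry_coprod (𝕜 := ℝ) (u := (0 : ℝ × ℝ))
    (f := fun s t => fderiv ℝ k (j (T (s, t))) 1)
    (f₁ := fun s t => ContinuousLinearMap.toSpanSingleton ℝ (P1 (T (s, t))))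
    (f₂ := fun s t => ContinuousLinearMap.toSpanSingleton ℝ (P2 (T (s, t))))
    ((tT.eventually d1).mono fun u hu => by
      have := HasDerivAt.comp_sub_const u.1 u.1 (by rwa [sub_self])
        (f := fun t : ℝ => fderiv ℝ k (j (T u + t • 1)) 1) (f' := P1 (T u))
      refine this.hasFDerivAt.congr_of_eventuallyEq (Eventually.of_forall fun s => ?_)
      simp only [T]
      congr 3; module)
    ((tT.eventually d2).mono fun u hu => by
      have := HasDerivAt.comp_sub_const u.2 u.2 (by rwa [sub_self])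
        (f := fun t : ℝ => fderiv ℝ k (j (T u + t • I)) 1) (f' := P2 (T u))
      refine this.hasFDerivAt.congr_of_eventuallyEq (Eventually.of_forall fun s => ?_)
      simp only [T]
      congr 3; module)
    (sm.continuousAt.comp (ContinuousAt.comp_of_eq c1 (by fun_prop) (by simp [T])))
    (sm.continuousAt.comp (ContinuousAt.comp_of_eq c2 (by fun_prop) (by simp [T])))
  have dk0 := (h.ck.differentiableAt one_ne_zero).sub_const (k x)
  refine (DifferentiableAt.comp x (f := fun z => ((k z - k x).re, (k z - k x).im))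
    (by rw [sub_self]; exact this.hasFDerivAt.differentiableAt)
    ((reCLM.differentiableAt.comp x dk0).prodMk (imCLM.differentiableAt.comp x dk0))
    (g := ↿fun s t => fderiv ℝ k (j (T (s, t))) 1)).congr_of_eventuallyEq
      (jk.mono fun z hz => ?_)
  have : T ((k z - k x).re, (k z - k x).im) = k z := by
    apply Complex.ext <;> simp [T]
  simp only [Function.comp, Function.HasUncurry.uncurry, id]
  rw [this, hz]

theorem Is.dd (h : Is k ψ x) : DifferentiableAt ℝ (fderiv ℝ k) x := by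
  refine (cb.differentiableAt.comp x (h.dp.prodMk
    (h.lam.1.differentiableAt.mul h.dp))).congr_of_eventuallyEq (h.ev.mono fun z hz => ?_)
  simp only [Function.comp, Pi.mul_apply, div_mul_cancel₀ _ hz.p0, cb_eq]

theorem Is.analytic (h : Is k ψ x) : AnalyticAt ℝ k x := by
  set p := fun z => fderiv ℝ k z 1
  set lm := fun z => fderiv ℝ k z I / fderiv ℝ k z 1
  set E := fun z => inner ℝ (fderiv ℝ k z 1) (fderiv ℝ k z 1)
  let R := fun v z => fderiv ℝ E z v / (2 * E z)
  let P := fun z => (R 1 z : ℂ) +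
    (((fderiv ℝ lm z 1).re + (lm z).re * R 1 z - R I z) / (lm z).im : ℝ) * I
  have aE : AnalyticAt ℝ E x := h.gram 1 1
  have aR : ∀ v, AnalyticAt ℝ (R v) x := fun v => (an_ap aE.fderiv analyticAt_const).div
    (analyticAt_const.mul aE) (by simpa [E] using h.p0)
  have al := an_ap h.lam.1.fderiv (analyticAt_const (v := 1))
  have aP : AnalyticAt ℝ P x := (an_of (aR 1)).add ((an_of ((((an_re al).add
    ((an_re h.lam.1).mul (aR 1))).sub (aR I)).div (an_im h.lam.1) h.lam.2)).mul analyticAt_const)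
  have ev : ∀ᶠ z in 𝓝 x, p z / p x ∈ slitPlane :=
    (h.dp.continuousAt.div_const _).preimage_mem_nhds
      (isOpen_slitPlane.mem_nhds (by simp [p, h.p0]))
  have a := prim (f := fun z => log (p z / p x))
    (f' := fun z => cb (P z, fderiv ℝ lm z 1 + lm z * P z)) (x := x) (by
      filter_upwards [h.ev, ev] with z hz sl
      have n := hz.p0
      have dp := hz.dp.hasFDerivAt
      have r : ∀ v, (fderiv ℝ p z v / p z).re = R v z := fun v => by
        have e := congrArg (· v) (dp.inner ℝ dp).fderiv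
        have : E z = normSq (p z) := by
          simp [E, p, Complex.inner, normSq_apply, -inner_self_eq_norm_sq_to_K]
        simp only [R]
        rw [show fderiv ℝ E z v = _ from e, this, div_re]
        simp [Complex.inner, -inner_self_eq_norm_sq_to_K, p]
        field_simp
        ring
      have s : fderiv ℝ p z I = fderiv ℝ lm z 1 * p z + lm z * fderiv ℝ p z 1 := by
        have d := fun v => (hz.dd.hasFDerivAt.clm_apply (hasFDerivAt_const v z)).fderiv
        have sy := second_derivative_symmetric_of_eventually (f := k) (f' := fderiv ℝ k)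
          (hz.ev.mono fun y hy => (hy.ck.differentiableAt one_ne_zero).hasFDerivAt)
          hz.dd.hasFDerivAt I 1
        have e : (fun y => fderiv ℝ k y I) =ᶠ[𝓝 z] lm * p := hz.ev.mono fun y hy =>
          (div_mul_cancel₀ _ hy.p0).symm
        have := congrArg (· 1) (e.fderiv_eq.trans (hz.lam.1.differentiableAt.hasFDerivAt.mul dp).fderiv)
        rw [d I] at this
        rw [show fderiv ℝ p z = _ from d 1] at this ⊢
        simp at this ⊢
        rw [sy, this]; ring
      have s2 : fderiv ℝ p z I / p z = fderiv ℝ lm z 1 + lm z * (fderiv ℝ p z 1 / p z) := by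
        rw [s, add_div, mul_div_assoc, mul_div_assoc, div_self n, mul_one]
      have e : fderiv ℝ p z 1 / p z = P z := by
        have := congrArg re s2
        have n2 : (lm z).im ≠ 0 := hz.lam.2
        rw [r, add_re, mul_re, r] at this
        refine Complex.ext (by simp [P, r]) ?_
        simp only [P, add_im, ofReal_im, mul_im, ofReal_re, I_im, I_re]
        field_simp
        linarith
      rw [← e, ← s2]
      have := ((hasDerivAt_log sl).hasFDerivAt.restrictScalars ℝ).comp z (dp.mul_const (p x)⁻¹)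
      refine this.congr_fderiv ?_
      rw [← cb_eq (_ ∘L _)]
      have := h.p0
      congr 2 <;> simp [p] <;> field_simp)
    (AnalyticAt.comp (g := cb) (f := fun z => (P z, fderiv ℝ lm z 1 + lm z * P z))
      (ContinuousLinearMap.analyticAt _ _) (aP.prod (al.add (h.lam.1.mul aP))))
  have ap : AnalyticAt ℝ p x :=
    (((analyticAt_cexp.restrictScalars (𝕜 := ℝ)).comp a).mul (analyticAt_const (v := p x))).congr (by
      filter_upwards [ev] with z hz
      simp only [Pi.mul_apply, Function.comp, exp_log (slitPlane_ne_zero hz)]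
      exact div_mul_cancel₀ _ h.p0)
  refine prim (h.ev.mono fun y hy => (hy.ck.differentiableAt one_ne_zero).hasFDerivAt)
    ((cb.analyticAt _ |>.comp (ap.prod (h.lam.1.mul ap))).congr (h.ev.mono fun z hz => ?_))
  simp only [Function.comp, Pi.mul_apply, p, div_mul_cancel₀ _ hz.p0, cb_eq]

end Pool.Agent.H.MP_60a66a_gt
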