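import Pool.Agent.H.MP_60a66a_gt.C

set_option autoImplicit false

namespace Pool.Agent.H.MP_60a66a_gt

open Set Filter Topology Complex

theorem linv {f : ℂ → ℂ} {x : ℂ} {n : WithTop ℕ∞} (hn : n ≠ 0) (h : ContDiffAt ℝ n f x)
    (i : Function.Injective (fderiv ℝ f x)) : ∃ j : ℂ → ℂ, ContDiffAt ℝ n j (f x) ∧
      (∀ᶠ z in 𝓝 x, j (f z) = z) ∧ ∀ᶠ w in 𝓝 (f x), f (j w) = w := by
  let L : ℂ ≃L[ℝ] ℂ := (LinearEquiv.ofInjectiveEndo (fderiv ℝ f x).toLinearMap
    i).toContinuousLinearEquiv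
  have dk : HasFDerivAt f (L : ℂ →L[ℝ] ℂ) x := (h.differentiableAt hn).hasFDerivAt
  have sk := h.hasStrictFDerivAt' dk hn
  exact ⟨_, h.to_localInverse dk hn, sk.eventually_left_inverse, sk.eventually_right_inverse⟩

variable {F : Type*} [NormedAddCommGroup F] [InnerProductSpace ℝ F] [CompleteSpace F]

theorem bridge {D : Set ℂ} (oD : IsOpen D) {r : ℂ → F} {Φ : ℂ → ℂ} (cr : ContDiffOn ℝ 1 r D)
    (emb : IsEmbedding (D.restrict r)) {p : ℂ} (hp : p ∈ D) (aΦ : AnalyticAt ℝ Φ p)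
    (iΦ : Function.Injective (fderiv ℝ Φ p))
    (iso : ∀ z ∈ D, ∀ v, ‖fderiv ℝ r z v‖ = ‖fderiv ℝ Φ z v‖) {ψ : ℂ → F} {x : ℂ}
    (aψ : AnalyticAt ℝ ψ x) (iψ : Function.Injective (fderiv ℝ ψ x)) (e0 : ψ x = r p)
    (sub : ∀ᶠ y in 𝓝 x, ψ y ∈ r '' D) : AnalyticAt ℝ r p := by
  have cp := cr.contDiffAt (oD.mem_nhds hp)
  set π := ContinuousLinearMap.adjoint (fderiv ℝ r p)
  obtain ⟨j, cj, j1, -⟩ := linv (f := π ∘ r) one_ne_zero (π.contDiff.contDiffAt.comp p cp) (by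
    rw [(π.hasFDerivAt.comp p (cp.differentiableAt one_ne_zero).hasFDerivAt).fderiv]
    refine (injective_iff_map_eq_zero _).2 fun v hv => (injective_iff_map_eq_zero _).1 iΦ v ?_
    have := congrArg (inner ℝ v) hv
    rw [ContinuousLinearMap.comp_apply, ContinuousLinearMap.adjoint_inner_right, inner_zero_right,
      inner_self_eq_zero] at this
    rw [← norm_eq_zero, ← iso p hp, this, norm_zero])
  set h := j ∘ π ∘ ψ
  have ch : ContDiffAt ℝ 1 h x := ContDiffAt.comp x (by simpa [e0] using cj)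
    (π.contDiff.contDiffAt.comp x aψ.contDiffAt)
  have hx : h x = p := by simpa [h, e0] using j1.self_of_nhds
  have rh : ∀ᶠ y in 𝓝 x, r (h y) = ψ y := by
    have : ∀ᶠ z : D in 𝓝 ⟨p, hp⟩, j (π (r z)) = z :=
      (continuous_subtype_val.tendsto (⟨p, hp⟩ : D)).eventually j1
    rw [emb.isInducing.nhds_eq_comap, eventually_comap] at this
    filter_upwards [sub, aψ.continuousAt.eventually (by rw [e0]; exact this)] with y ⟨z, hz, e⟩ b
    rw [← e, show h y = z by simp only [h, Function.comp, ← e]; exact b ⟨z, hz⟩ e]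
  have th : Tendsto h (𝓝 x) (𝓝 p) := hx ▸ ch.continuousAt
  have K : Is (Φ ∘ h) ψ x := ⟨ContDiffAt.comp x (hx ▸ aΦ.contDiffAt) ch, aψ, iψ, by
    filter_upwards [rh.eventually_nhds, ch.eventually (by simp), th.eventually (oD.mem_nhds hp),
      th.eventually aΦ.eventually_analyticAt] with y a b c d v
    have db := b.differentiableAt one_ne_zero
    rw [fderiv_comp y d.differentiableAt db, ← EventuallyEq.fderiv_eq (f₁ := r ∘ h) a, fderiv_comp y
      ((cr.contDiffAt (oD.mem_nhds c)).differentiableAt one_ne_zero) db]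
    exact (iso _ c _).symm⟩
  obtain ⟨i, ci, i1, i2⟩ := linv (n := ⊤) (by simp) K.analytic.contDiffAt K.injk
  obtain ⟨g, -, g1, -⟩ := linv one_ne_zero aΦ.contDiffAt iΦ
  have ix := i1.self_of_nhds
  simp only [Function.comp, hx] at ci i2 ix
  have ti : Tendsto (fun z => i (Φ z)) (𝓝 p) (𝓝 x) :=
    ix ▸ ci.continuousAt.tendsto.comp aΦ.continuousAt
  refine (AnalyticAt.comp (g := ψ) (f := i ∘ Φ) (by simpa [ix] using aψ)
    (ci.analyticAt.comp aΦ)).congr ?_
  filter_upwards [ti.eventually rh, aΦ.continuousAt.eventually i2, g1,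
    (th.comp ti).eventually g1] with z a b c d
  simp only [Function.comp] at a b c d ⊢
  rw [← a, ← d, b, c]

noncomputable def pd {G : Type*} [NormedAddCommGroup G] [NormedSpace ℝ G] (e : ℂ) (f : ℂ → G)
    (w : ℂ) : G := fderiv ℝ f w e

theorem pd_an {f : ℂ → F} {w : ℂ} (h : AnalyticAt ℝ f w) (e : ℂ) : AnalyticAt ℝ (pd e f) w :=
  an_ap h.fderiv analyticAt_const

theorem pd_pd {f : ℂ → F} {w : ℂ} (h : AnalyticAt ℝ f w) (a b : ℂ) :
    pd a (pd b f) w = fderiv ℝ (fderiv ℝ f) w a b := by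
  unfold pd
  rw [(h.fderiv.differentiableAt.hasFDerivAt.clm_apply (hasFDerivAt_const b w)).fderiv]
  simp

theorem pd_sy {f : ℂ → F} {w : ℂ} (h : AnalyticAt ℝ f w) (a b : ℂ) :
    pd a (pd b f) w = pd b (pd a f) w := by
  rw [pd_pd h, pd_pd h]
  exact second_derivative_symmetric_of_eventually
    (h.eventually_analyticAt.mono fun y hy => hy.differentiableAt.hasFDerivAt)
    h.fderiv.differentiableAt.hasFDerivAt a b

omit [CompleteSpace F] in
theorem pd_ip {f g : ℂ → F} {w : ℂ} (h : AnalyticAt ℝ f w) (h' : AnalyticAt ℝ g w) {c : ℝ}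
    (e : ∀ᶠ y in 𝓝 w, inner ℝ (f y) (g y) = c) (a : ℂ) :
    inner ℝ (f w) (pd a g w) + inner ℝ (pd a f w) (g w) = 0 := by
  have := (h.differentiableAt.hasFDerivAt.inner ℝ h'.differentiableAt.hasFDerivAt).unique
    ((hasFDerivAt_const c w).congr_of_eventuallyEq e)
  simpa [pd] using congrArg (· a) this

structure Dv (ρ : ℂ → F) (w : ℂ) : Prop where
  an : AnalyticAt ℝ ρ w
  iso : ∀ᶠ z in 𝓝 w, ∀ v, ‖fderiv ℝ ρ z v‖ = ‖v‖

variable {ρ : ℂ → F} {w : ℂ}

omit [CompleteSpace F] in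
theorem Dv.ev (h : Dv ρ w) [CompleteSpace F] : ∀ᶠ z in 𝓝 w, Dv ρ z := by
  filter_upwards [h.an.eventually_analyticAt, h.iso.eventually_nhds] with z a b using ⟨a, b⟩

theorem Dv.perp (h : Dv ρ w) (a b c : ℂ) : inner ℝ (pd a (pd b ρ) w) (pd c ρ w) = 0 := by
  have k : ∀ a b c, inner ℝ (pd a (pd b ρ) w) (pd c ρ w) = -inner ℝ (pd a (pd c ρ) w) (pd b ρ w) :=
    fun a b c => by
      have := pd_ip (pd_an h.an b) (pd_an h.an c) (c := inner ℝ b c)
        (h.iso.mono fun y hy => polar (T := ContinuousLinearMap.id ℝ ℂ) hy b c) a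
      rw [real_inner_comm] at this
      linarith
  have := k a b c
  rw [pd_sy h.an a c, k c a b, pd_sy h.an c b, k b c a, pd_sy h.an b a] at this
  linarith

theorem Dv.gauss (h : Dv ρ w) (u v : ℂ) : inner ℝ (pd u (pd u ρ) w) (pd v (pd v ρ) w) =
    ‖pd u (pd v ρ) w‖ ^ 2 := by
  have a := pd_ip (pd_an (pd_an h.an u) u) (pd_an h.an v) (h.ev.mono fun y hy => hy.perp u u v) v
  have b := pd_ip (pd_an (pd_an h.an u) v) (pd_an h.an v) (h.ev.mono fun y hy => hy.perp v u v) u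
  rw [pd_sy (pd_an h.an u) u v, pd_sy h.an v u, real_inner_self_eq_norm_sq] at b
  linarith

theorem Dv.par (h : Dv ρ w) (h3 : Module.finrank ℝ F = 3) {X Y : F} (hX : ∀ c, inner ℝ X (pd c ρ w) = 0)
    (hY : ∀ c, inner ℝ Y (pd c ρ w) = 0) (n : X ≠ 0) : ∃ t : ℝ, Y = t • X := by
  have : FiniteDimensional ℝ F := Module.finite_of_finrank_pos (by omega)
  set K := LinearMap.range (fderiv ℝ ρ w).toLinearMap
  have r2 : Module.finrank ℝ K = 2 := by
    rw [LinearMap.finrank_range_of_inj, finrank_real_complex]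
    exact (injective_iff_map_eq_zero _).2 fun v hv => by
      rw [← norm_eq_zero, ← h.iso.self_of_nhds]; exact norm_eq_zero.2 hv
  have r1 : Module.finrank ℝ Kᗮ = 1 := by
    have := K.finrank_add_finrank_orthogonal; omega
  have m : ∀ Z : F, (∀ c, inner ℝ Z (pd c ρ w) = 0) → Z ∈ Kᗮ := fun Z hZ =>
    (Submodule.mem_orthogonal' _ _).2 fun _ ⟨c, e⟩ => e ▸ hZ c
  obtain ⟨t, ht⟩ := (finrank_eq_one_iff_of_nonzero' (⟨X, m X hX⟩ : Kᗮ) (by simpa using n)).1 r1
    ⟨Y, m Y hY⟩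
  exact ⟨t, (congrArg Subtype.val ht).symm⟩

theorem Dv.zero (h : Dv ρ w) {v : ℂ} (hv : v ≠ 0) (a : fderiv ℝ (fderiv ℝ ρ) w v = 0)
    (b : pd (I * v) (pd (I * v) ρ) w = 0) : fderiv ℝ (fderiv ℝ ρ) w = 0 := by
  have sp : ∀ c : ℂ, c = (c / v).re • v + (c / v).im • (I * v) := fun c => by
    rw [real_smul, real_smul, ← mul_assoc, ← add_mul, re_add_im, div_mul_cancel₀ _ hv]
  ext c d
  have s : fderiv ℝ (fderiv ℝ ρ) w (I * v) v = 0 := by
    rw [← pd_pd h.an, pd_sy h.an, pd_pd h.an, a]; rfl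
  rw [pd_pd h.an] at b
  rw [sp c, sp d]
  simp [a, b, s, -real_smul]

theorem rule (h3 : Module.finrank ℝ F = 3) {v : ℂ} (hv : v ≠ 0)
    (H : ∀ s ∈ Icc (0:ℝ) 1, Dv ρ (w + s • v)) (n : fderiv ℝ (fderiv ℝ ρ) w ≠ 0)
    (a : fderiv ℝ (fderiv ℝ ρ) w v = 0) :
    ∀ s ∈ Icc (0:ℝ) 1, fderiv ℝ (fderiv ℝ ρ) (w + s • v) v = 0 := by
  have h : Dv ρ w := by simpa using H 0 ⟨le_rfl, zero_le_one⟩
  set u := I * v
  set L := pd u (pd u ρ)
  set M := pd u (pd v ρ)
  set N := pd v (pd v ρ)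
  have aL : AnalyticAt ℝ L w := pd_an (pd_an h.an u) u
  have aM : AnalyticAt ℝ M w := pd_an (pd_an h.an v) u
  have L0 : L w ≠ 0 := fun e => n (h.zero hv a e)
  set T := fun y => (inner ℝ (L y) (L y))⁻¹ • L y
  have aT : AnalyticAt ℝ T w := ((an_ip aL aL).inv (by simpa using L0)).smul aL
  have eN : ∀ᶠ y in 𝓝 w, N y = ‖M y‖ ^ 2 • T y := by
    filter_upwards [h.ev, aL.continuousAt.eventually_ne L0] with y hy n
    obtain ⟨t, ht⟩ := hy.par h3 (hy.perp u u) (hy.perp v v) n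
    have := hy.gauss u v
    change inner ℝ (L y) (N y) = ‖M y‖ ^ 2 at this
    change N y = t • L y at ht
    rw [← this, ht, inner_smul_right, smul_smul, mul_assoc, mul_inv_cancel₀ (by simpa using n),
      mul_one]
  have bd : ∀ᶠ y in 𝓝 w, 2 * ‖pd u M y‖ * ‖T y‖ + ‖M y‖ * ‖pd u T y‖ <
      2 * ‖pd u M w‖ * ‖T w‖ + ‖M w‖ * ‖pd u T w‖ + 1 := by
    have := (pd_an aM u).continuousAt
    have := (pd_an aT u).continuousAt
    have := aM.continuousAt
    have := aT.continuousAt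
    exact ContinuousAt.eventually_lt (by fun_prop) continuousAt_const (lt_add_one _)
  have cl : Continuous fun s : ℝ => w + s • v := by fun_prop
  have tl : Tendsto (fun s : ℝ => w + s • v) (𝓝 0) (𝓝 w) := by simpa using cl.tendsto 0
  obtain ⟨η, η0, hη⟩ := Metric.nhds_basis_closedBall.mem_iff.1 (tl.eventually (h.ev.and
    (eN.eventually_nhds.and (bd.and (aM.eventually_analyticAt.and aT.eventually_analyticAt)))))
  have m : ∀ s ∈ Icc 0 η, s ∈ Metric.closedBall (0:ℝ) η := fun s hs => by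
    rw [mem_closedBall_zero_iff, Real.norm_eq_abs, abs_of_nonneg hs.1]; exact hs.2
  have dM : ∀ s ∈ Icc 0 η, HasDerivAt (fun s : ℝ => M (w + s • v)) (pd v M (w + s • v)) s :=
    fun s hs => HasFDerivAt.comp_hasDerivAt (l := M) s
      (hη (m s hs)).2.2.2.1.differentiableAt.hasFDerivAt (dl w v s)
  have z := eq_zero_of_abs_deriv_le_mul_abs_self_of_eq_zero_right (a := 0) (b := η)
    (K := 2 * ‖pd u M w‖ * ‖T w‖ + ‖M w‖ * ‖pd u T w‖ + 1)
    (fun s hs => (dM s hs).continuousAt.continuousWithinAt)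
    (fun s hs => (dM s (Ico_subset_Icc_self hs)).hasDerivWithinAt)
    (by simp only [zero_smul, add_zero, M]; rw [pd_sy h.an, pd_pd h.an, a]; rfl) (fun s hs => by
      obtain ⟨a1, a2, a3, a4, a5⟩ := hη (m s (Ico_subset_Icc_self hs))
      generalize w + s • v = y at *
      have d := (a4.differentiableAt.hasFDerivAt.norm_sq.smul a5.differentiableAt.hasFDerivAt).fderiv
      rw [pd_sy (pd_an a1.an v), pd, EventuallyEq.fderiv_eq (f₁ := N) a2,
        show fderiv ℝ (fun y => ‖M y‖ ^ 2 • T y) y = _ from d]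
      refine le_trans ?_ (mul_le_mul_of_nonneg_right a3.le (norm_nonneg _))
      have := abs_real_inner_le_norm (M y) (pd u M y)
      simp only [ContinuousLinearMap.add_apply, ContinuousLinearMap.smul_apply,
        ContinuousLinearMap.smulRight_apply, ContinuousLinearMap.comp_apply, innerSL_apply_apply]
      refine (norm_add_le _ _).trans ?_
      rw [norm_smul, norm_smul, norm_pow, norm_norm, nsmul_eq_mul, Real.norm_eq_abs, abs_mul]
      have := mul_le_mul_of_nonneg_right this (norm_nonneg (T y))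
      simp only [pd] at *
      norm_num
      nlinarith)
  have an : AnalyticOnNhd ℝ (fun s : ℝ => fderiv ℝ (fderiv ℝ ρ) (w + s • v) v) (Icc 0 1) :=
    fun s hs => an_ap (AnalyticAt.comp (f := fun s : ℝ => w + s • v) (H s hs).an.fderiv.fderiv
      (analyticAt_const.add (analyticAt_id.smul analyticAt_const))) analyticAt_const
  refine an.eqOn_zero_of_preconnected_of_frequently_eq_zero isPreconnected_Icc
    (left_mem_Icc.2 zero_le_one) (Eventually.frequently (f := 𝓝[>] 0) ?_ |>.filter_mono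
      (nhdsWithin_mono _ fun _ a => ne_of_gt a))
  filter_upwards [Ioo_mem_nhdsGT η0] with s hs
  have hs' := Ioo_subset_Icc_self hs
  obtain ⟨a1, a2, -⟩ := hη (m s hs')
  have b1 := z s hs'
  have b2 := a2.self_of_nhds
  rw [b1, norm_zero, zero_pow two_ne_zero, zero_smul] at b2
  ext c
  have sp : c = (c / v).re • v + (c / v).im • u := by
    rw [real_smul, real_smul, ← mul_assoc, ← add_mul, re_add_im, div_mul_cancel₀ _ hv]
  simp only [M, N] at b1 b2
  rw [pd_sy a1.an, pd_pd a1.an] at b1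
  rw [pd_pd a1.an] at b2
  rw [sp]
  simp [b1, b2, -real_smul]

end Pool.Agent.H.MP_60a66a_gt
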