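import Pool.Agent.H.MP_60a66a_gt.D

set_option autoImplicit false

namespace Pool.Agent.H.MP_60a66a_gt

open Set Filter Topology Complex

theorem unitq {U : Set ℝ} (oU : IsOpen U) (pU : IsPreconnected U) {nu : ℝ → ℂ} {de : ℝ → ℝ}
    (a1 : AnalyticOnNhd ℝ nu U) (a2 : AnalyticOnNhd ℝ de U) (e : ∀ θ ∈ U, ‖nu θ‖ = de θ) {θ0 : ℝ}
    (h0 : θ0 ∈ U) (n : de θ0 ≠ 0) :
    ∃ E : ℝ → ℂ, AnalyticOnNhd ℝ E U ∧ ∀ θ ∈ U, ‖E θ‖ = 1 ∧ nu θ = de θ * E θ := by
  have mf : MeromorphicOn (fun θ => (de θ)⁻¹ • nu θ) U := fun θ h =>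
    (a2 θ h).meromorphicAt.inv.smul (a1 θ h).meromorphicAt
  set E := toMeromorphicNFOn (fun θ => (de θ)⁻¹ • nu θ) U
  have k : ∀ θ ∈ U, ∀ᶠ s in 𝓝[≠] θ, ‖E s‖ = 1 ∧ nu s = de s * E s := fun θ h => by
    have : ∀ᶠ s in 𝓝[≠] θ, de s ≠ 0 := by
      by_contra hn
      exact n (a2.eqOn_zero_of_preconnected_of_frequently_eq_zero pU h (by simpa using hn) h0)
    filter_upwards [this, mf.toMeromorphicNFOn_eq_self_on_nhdsNE h,
      nhdsWithin_le_nhds (oU.mem_nhds h)] with s a b c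
    rw [show E s = _ from b, norm_smul, e s c, norm_inv, Real.norm_of_nonneg (e s c ▸ norm_nonneg _),
      inv_mul_cancel₀ a, real_smul, ofReal_inv, mul_inv_cancel_left₀ (by simpa using a)]
    exact ⟨rfl, rfl⟩
  have aE : AnalyticOnNhd ℝ E U := fun θ h =>
    (meromorphicNFOn_toMeromorphicNFOn _ _ h).meromorphicOrderAt_nonneg_iff_analyticAt.1 (by
      by_contra hn
      have := tendsto_norm_atTop_iff_cobounded.2
        (tendsto_cobounded_of_meromorphicOrderAt_neg (not_le.1 hn))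
      obtain ⟨s, a, b⟩ := ((this.eventually_gt_atTop 1).and (k θ h)).exists
      exact a.ne' b.1)
  exact ⟨E, aE, fun θ h => ⟨tendsto_nhds_unique_of_eventuallyEq
    ((aE θ h).continuousAt.norm.tendsto.mono_left nhdsWithin_le_nhds) tendsto_const_nhds
      ((k θ h).mono fun _ a => a.1), tendsto_nhds_unique_of_eventuallyEq
    ((a1 θ h).continuousAt.tendsto.mono_left nhdsWithin_le_nhds)
    (((an_of (a2 θ h)).mul (aE θ h)).continuousAt.tendsto.mono_left nhdsWithin_le_nhds)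
      ((k θ h).mono fun _ a => a.2)⟩⟩

theorem lift {a b : ℝ} {J : ℝ → ℂ} (aJ : AnalyticOnNhd ℝ J (Ioo a b))
    (n : ∀ θ ∈ Ioo a b, ‖J θ‖ = 1) {θ0 : ℝ} (h0 : θ0 ∈ Ioo a b) :
    ∃ δ : ℝ → ℝ, AnalyticOnNhd ℝ δ (Ioo a b) ∧ |δ θ0| ≤ Real.pi ∧
      ∀ θ ∈ Ioo a b, exp (δ θ * I) = J θ := by
  have n0 : ∀ θ ∈ Ioo a b, J θ ≠ 0 := fun θ h e => by simpa [e] using n θ h
  set κ := fun θ => (deriv J θ / J θ).im
  have aκ : AnalyticOnNhd ℝ κ (Ioo a b) := fun θ h =>
    an_im ((aJ θ h).deriv.div (aJ θ h) (n0 θ h))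
  set δ := fun θ => arg (J θ0) + ∫ s in θ0..θ, κ s
  have dδ : ∀ θ ∈ Ioo a b, HasDerivAt δ (κ θ) θ := fun θ h =>
    (intervalIntegral.integral_hasDerivAt_right ((aκ.continuousOn.mono
      (ordConnected_Ioo.uIcc_subset h0 h)).intervalIntegrable)
      (aκ.continuousOn.stronglyMeasurableAtFilter isOpen_Ioo θ h) (aκ θ h).continuousAt).const_add _
  have d : ∀ θ ∈ Ioo a b, HasDerivAt (fun θ => J θ * exp (-(δ θ * I))) 0 θ := fun θ h => by
    have dJ := (aJ θ h).differentiableAt.hasDerivAt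
    have r := dJ.norm_sq.unique ((hasDerivAt_const θ (1:ℝ)).congr_of_eventuallyEq (by
      filter_upwards [isOpen_Ioo.mem_nhds h] with s hs
      rw [n s hs, one_pow]))
    have e : deriv J θ = κ θ * I * J θ := by
      rw [← div_eq_iff (n0 θ h)]
      refine Complex.ext ?_ (by simp [κ])
      rw [div_re]
      simp [Complex.inner, -inner_self_eq_norm_sq_to_K] at r ⊢
      rw [← add_div, r, zero_div]
    refine (dJ.mul (((dδ θ h).ofReal_comp.mul_const I).neg.cexp)).congr_deriv ?_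
    rw [e]; ring
  refine ⟨δ, fun θ h => prim (f' := fun s => ContinuousLinearMap.toSpanSingleton ℝ (κ s))
    (by filter_upwards [isOpen_Ioo.mem_nhds h] with s hs using (dδ s hs).hasFDerivAt)
    (((ContinuousLinearMap.smulRightL ℝ ℝ ℝ 1).analyticAt _).comp (aκ θ h)),
    by simpa [δ] using abs_arg_le_pi _, fun θ h => ?_⟩
  have := isOpen_Ioo.is_const_of_deriv_eq_zero isPreconnected_Ioo
    (fun s hs => (d s hs).differentiableAt.differentiableWithinAt) (fun s hs => (d s hs).deriv) h h0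
  have e := norm_mul_exp_arg_mul_I (J θ0)
  rw [n θ0 h0, ofReal_one, one_mul] at e
  simp only [δ, intervalIntegral.integral_same, add_zero, exp_neg, e,
    mul_inv_cancel₀ (n0 θ0 h0), mul_inv_eq_one₀ (exp_ne_zero _)] at this
  exact this.symm

variable {F : Type*} [NormedAddCommGroup F] [InnerProductSpace ℝ F] [CompleteSpace F]

noncomputable def nu (S : ℂ →L[ℝ] ℂ →L[ℝ] F) : ℂ :=
  (inner ℝ (S I I - S 1 1) (S 1 1 + S I I) : ℝ) - 2 * (inner ℝ (S 1 I) (S 1 1 + S I I) : ℝ) * I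

noncomputable def de (S : ℂ →L[ℝ] ℂ →L[ℝ] F) : ℝ := inner ℝ (S 1 1 + S I I) (S 1 1 + S I I)

def Kr (S : ℂ →L[ℝ] ℂ →L[ℝ] F) : Prop := ‖nu S‖ = de S ∧
  (S ≠ 0 → de S ≠ 0 ∧ ∀ v : ℂ, ‖v‖ = 1 → (S v = 0 ↔ nu S = de S * v ^ 2))

variable {ρ : ℂ → F} {w : ℂ}

theorem Dv.kr (h : Dv ρ w) (h3 : Module.finrank ℝ F = 3) : Kr (fderiv ℝ (fderiv ℝ ρ) w) := by
  have g := h.gauss 1 I
  have sy := pd_sy h.an I 1
  have pr : ∀ a b c, inner ℝ (fderiv ℝ (fderiv ℝ ρ) w a b) (pd c ρ w) = 0 := fun a b c => by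
    rw [← pd_pd h.an]; exact h.perp a b c
  simp only [pd_pd h.an] at g sy
  set S := fderiv ℝ (fderiv ℝ ρ) w
  by_cases n : S 1 1 + S I I = 0
  · refine ⟨by simp [nu, de, n], fun hn => absurd ?_ hn⟩
    have e := eq_neg_of_add_eq_zero_right n
    rw [e, inner_neg_right, real_inner_self_eq_norm_sq] at g
    have a : S 1 1 = 0 := by
      rw [← norm_eq_zero]; nlinarith [norm_nonneg (S 1 1), sq_nonneg ‖S 1 I‖]
    have b : S 1 I = 0 := by
      rw [← norm_eq_zero]; nlinarith [norm_nonneg (S 1 I), sq_nonneg ‖S 1 1‖]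
    ext c d
    rw [clm_eq S c]
    simp only [ContinuousLinearMap.add_apply, ContinuousLinearMap.smul_apply]
    rw [clm_eq (S 1), clm_eq (S I), sy, e, a, b]
    simp
  have pH : ∀ c, inner ℝ (S 1 1 + S I I) (pd c ρ w) = 0 := fun c => by
    rw [inner_add_left, pr, pr, add_zero]
  obtain ⟨l, hl⟩ := h.par h3 pH (pr 1 1) n
  obtain ⟨m, hm⟩ := h.par h3 pH (pr 1 I) n
  set H := S 1 1 + S I I with hH
  have hn : S I I = (1 - l) • H := by rw [sub_smul, one_smul, ← hl, hH]; abel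
  have d0 : 0 < de S := real_inner_self_pos.2 n
  have e : l * (1 - l) = m ^ 2 := by
    rw [hl, hn, hm, inner_smul_left, inner_smul_right, ← real_inner_self_eq_norm_sq, inner_smul_left,
      inner_smul_right] at g
    refine mul_right_cancel₀ d0.ne' ?_
    simp only [de, ← hH, conj_trivial] at g ⊢
    linarith
  have en : nu S = de S * (((1 - 2 * l : ℝ) : ℂ) - (2 * m : ℝ) * I) := by
    simp only [nu, de, ← hH]
    rw [hn, hm, hl, ← sub_smul, inner_smul_left, inner_smul_left]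
    simp only [conj_trivial]
    push_cast; ring
  refine ⟨?_, fun _ => ⟨d0.ne', fun v hv => ?_⟩⟩
  · rw [en, norm_mul, norm_real, Real.norm_of_nonneg d0.le, norm_eq_sqrt_sq_add_sq]
    simp only [sub_re, ofReal_re, mul_re, I_re, ofReal_im, I_im, sub_im, mul_im]
    rw [show _ + _ = (1:ℝ) by nlinarith, Real.sqrt_one, mul_one]
  have v1 : v.re ^ 2 + v.im ^ 2 = 1 := by
    rw [← Real.sqrt_eq_one, ← norm_eq_sqrt_sq_add_sq, hv]
  have k : S v = 0 ↔ v.re * l + v.im * m = 0 ∧ v.re * m + v.im * (1 - l) = 0 := by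
    have a : S v 1 = (v.re * l + v.im * m) • H := by
      rw [clm_eq S v]
      simp only [ContinuousLinearMap.add_apply, ContinuousLinearMap.smul_apply]
      rw [sy, hm, hl]; module
    have b : S v I = (v.re * m + v.im * (1 - l)) • H := by
      rw [clm_eq S v]
      simp only [ContinuousLinearMap.add_apply, ContinuousLinearMap.smul_apply]
      rw [hm, hn]; module
    refine ⟨fun z => ?_, fun ⟨x, y⟩ => ?_⟩
    · rw [z] at a b
      exact ⟨(smul_eq_zero.1 a.symm).resolve_right n, (smul_eq_zero.1 b.symm).resolve_right n⟩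
    · ext c
      rw [clm_eq (S v), a, b, x, y]; simp
  rw [k, en, mul_right_inj' (by simpa using d0.ne'), Complex.ext_iff]
  simp only [sub_re, ofReal_re, mul_re, I_re, ofReal_im, I_im, sub_im, mul_im, sq]
  generalize v.re = x at *
  generalize v.im = y at *
  refine ⟨fun ⟨a, b⟩ => ⟨?_, ?_⟩, fun ⟨a, b⟩ => ?_⟩
  · linear_combination (-2 * x) * a + (2 * y) * b + (2 * l - 1) * v1
  · linear_combination (-2 * y) * a - (2 * x) * b + (2 * m) * v1
  · have c : l = y ^ 2 := by linear_combination (-1 / 2) * a - (1 / 2) * v1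
    have d : m = -(x * y) := by linear_combination (-1 / 2) * b
    rw [c, d]
    exact ⟨by ring, by linear_combination (-y) * v1⟩

end Pool.Agent.H.MP_60a66a_gt
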