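import Pool.Agent.H.MP_60a66a_gt.E

set_option autoImplicit false

namespace Pool.Agent.H.MP_60a66a_gt

open Set Filter Topology Complex

variable {F : Type*} [NormedAddCommGroup F] [InnerProductSpace ℝ F] [CompleteSpace F]

def St (a b : ℝ) : Set ℂ := {ζ | a < ζ.re ∧ ζ.re < b ∧ |ζ.im| < 20}

theorem St_open (a b : ℝ) : IsOpen (St a b) :=
  (isOpen_lt continuous_const continuous_re).inter ((isOpen_lt continuous_re continuous_const).inter
    (isOpen_lt continuous_im.abs continuous_const))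

structure Sp (R : ℂ → F) (a b : ℝ) : Prop where
  h3 : Module.finrank ℝ F = 3
  an : ∀ ζ ∈ St a b, AnalyticAt ℝ R ζ
  iso : ∀ ζ ∈ St a b, ∀ v, ‖fderiv ℝ R ζ v‖ = ‖exp ζ * v‖
  inj : InjOn R (St a b)

noncomputable def br (τ : ℝ) (w : ℂ) : ℂ := log (w * exp (-(τ * I))) + τ * I

noncomputable def mu (c : ℂ) : ℂ →L[ℝ] ℂ := ContinuousLinearMap.mul ℝ ℂ c

noncomputable def AA (R : ℂ → F) (ζ : ℂ) : ℂ →L[ℝ] F := (fderiv ℝ R ζ).comp (mu (exp (-ζ)))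

noncomputable def BB (R : ℂ → F) (ζ : ℂ) : ℂ →L[ℝ] ℂ →L[ℝ] F :=
  (fderiv ℝ (AA R) ζ).comp (mu (exp (-ζ)))

theorem an_cm {G : Type*} [NormedAddCommGroup G] [NormedSpace ℝ G] [CompleteSpace G] {R : ℂ → G}
    {ζ : ℂ} (h : AnalyticAt ℝ R ζ) :
    AnalyticAt ℝ (fun ζ => (fderiv ℝ R ζ).comp (mu (exp (-ζ)))) ζ :=
  ((ContinuousLinearMap.compL ℝ ℂ ℂ G).analyticAt_bilinear _).comp₂ h.fderiv
    (((ContinuousLinearMap.mul ℝ ℂ).analyticAt _).comp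
      ((analyticAt_cexp.restrictScalars (𝕜 := ℝ)).comp analyticAt_id.neg))

def Wt (a b τ : ℝ) : Set ℂ := {w | w * exp (-(τ * I)) ∈ slitPlane ∧ br τ w ∈ St a b}

theorem br_an {τ : ℝ} {w : ℂ} (h : w * exp (-(τ * I)) ∈ slitPlane) : AnalyticAt ℝ (br τ) w :=
  (((analyticAt_id.mul analyticAt_const).clog h).add analyticAt_const).restrictScalars

theorem exp_br {τ : ℝ} {w : ℂ} (h : w * exp (-(τ * I)) ∈ slitPlane) : exp (br τ w) = w := by
  rw [br, exp_add, exp_log (slitPlane_ne_zero h), mul_assoc, ← exp_add]; simp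

theorem br_d {τ : ℝ} {w : ℂ} (h : w * exp (-(τ * I)) ∈ slitPlane) :
    HasFDerivAt (br τ) (mu (exp (-br τ w))) w := by
  refine ((((hasDerivAt_id w).mul_const (exp (-(τ * I)))).clog h).add_const
    (τ * I)).hasFDerivAt.restrictScalars ℝ |>.congr_fderiv ?_
  ext v
  rw [exp_neg (br τ w), exp_br h]
  have := exp_ne_zero (-(τ * I))
  simp [mu]
  field_simp

theorem Wt_ev {a b τ : ℝ} {w : ℂ} (h : w ∈ Wt a b τ) : ∀ᶠ z in 𝓝 w, z ∈ Wt a b τ :=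
  ((by fun_prop : Continuous fun w : ℂ => w * exp (-(τ * I))).continuousAt.eventually
    (isOpen_slitPlane.mem_nhds h.1)).and
    ((br_an h.1).continuousAt.eventually ((St_open a b).mem_nhds h.2))

theorem br_exp {τ : ℝ} {ζ : ℂ} (h : |ζ.im - τ| < Real.pi) :
    exp ζ * exp (-(τ * I)) ∈ slitPlane ∧ br τ (exp ζ) = ζ := by
  have a := abs_lt.1 h
  have e : log (exp ζ * exp (-(τ * I))) = ζ - τ * I := by
    rw [← exp_add, log_exp (by simpa [sub_eq_add_neg] using a.1) (by simpa [sub_eq_add_neg] using a.2.le)]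
    ring
  refine ⟨mem_slitPlane_iff_arg.2 ⟨?_, by simp⟩, by rw [br, e]; ring⟩
  rw [← log_im, e]
  simpa using a.2.ne

variable {R : ℂ → F} {a b τ : ℝ} {w : ℂ}

theorem Sp.d1 (h : Sp R a b) (hw : w ∈ Wt a b τ) : fderiv ℝ (R ∘ br τ) w = AA R (br τ w) :=
  ((h.an _ hw.2).differentiableAt.hasFDerivAt.comp w (br_d hw.1)).fderiv

theorem Sp.d2 (h : Sp R a b) (hw : w ∈ Wt a b τ) :
    fderiv ℝ (fderiv ℝ (R ∘ br τ)) w = BB R (br τ w) := by
  rw [EventuallyEq.fderiv_eq (f := AA R ∘ br τ) ((Wt_ev hw).mono fun z hz => h.d1 hz)]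
  exact ((an_cm (h.an _ hw.2)).differentiableAt.hasFDerivAt.comp w (br_d hw.1)).fderiv

theorem Sp.dv (h : Sp R a b) (hw : w ∈ Wt a b τ) : Dv (R ∘ br τ) w :=
  ⟨(h.an _ hw.2).comp (br_an hw.1), (Wt_ev hw).mono fun z hz v => by
    rw [h.d1 hz, AA, ContinuousLinearMap.comp_apply, h.iso _ hz.2]
    simp [mu, ← mul_assoc, ← exp_add]⟩

theorem Sp.kr (h : Sp R a b) {ζ : ℂ} (hz : ζ ∈ St a b) : Kr (BB R ζ) := by
  obtain ⟨x, y⟩ := br_exp (τ := ζ.im) (ζ := ζ) (by simp [Real.pi_pos])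
  have m : exp ζ ∈ Wt a b ζ.im := ⟨x, by rwa [y]⟩
  have := (h.dv m).kr h.h3
  rwa [h.d2 m, y] at this

noncomputable def sg (t θ : ℝ) : ℂ := t + θ * I

theorem sg_d (t θ : ℝ) : HasDerivAt (sg t) I θ :=
  ((((hasDerivAt_id θ).ofReal_comp).mul_const I).const_add (t : ℂ)).congr_deriv (by simp)

theorem sg_an (t θ : ℝ) : AnalyticAt ℝ (sg t) θ :=
  analyticAt_const.add ((an_of analyticAt_id).mul analyticAt_const)

theorem sg_mem {t θ : ℝ} (ht : t ∈ Ioo a b) (h : θ ∈ Ioo (-20:ℝ) 20) : sg t θ ∈ St a b := by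
  simpa [St, sg, abs_lt] using ⟨ht.1, ht.2, h.1, h.2⟩

noncomputable def gg (R : ℂ → F) (t θ : ℝ) : F × (ℂ →L[ℝ] F) :=
  (R (sg t θ) - AA R (sg t θ) (exp (sg t θ)), AA R (sg t θ))

variable {t θ : ℝ}

theorem Sp.da (h : Sp R a b) (ht : t ∈ Ioo a b) (hθ : θ ∈ Ioo (-20:ℝ) 20) :
    HasDerivAt (fun θ => AA R (sg t θ)) (BB R (sg t θ) (I * exp (sg t θ))) θ := by
  refine ((an_cm (h.an _ (sg_mem ht hθ))).differentiableAt.hasFDerivAt.comp_hasDerivAt θ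
    (sg_d t θ)).congr_deriv ?_
  simp [BB, mu, mul_left_comm, ← exp_add]
  rfl

theorem an_w (t θ : ℝ) : AnalyticAt ℝ (fun θ => exp (sg t θ)) θ :=
  (analyticAt_cexp.restrictScalars (𝕜 := ℝ)).comp (sg_an t θ)

theorem Sp.aA (h : Sp R a b) (ht : t ∈ Ioo a b) (hθ : θ ∈ Ioo (-20:ℝ) 20) :
    AnalyticAt ℝ (fun θ => AA R (sg t θ)) θ := (an_cm (h.an _ (sg_mem ht hθ))).comp (sg_an t θ)

theorem Sp.aB (h : Sp R a b) (ht : t ∈ Ioo a b) (hθ : θ ∈ Ioo (-20:ℝ) 20) :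
    AnalyticAt ℝ (fun θ => BB R (sg t θ)) θ :=
  (an_cm (an_cm (h.an _ (sg_mem ht hθ)))).comp (sg_an t θ)

theorem Sp.ag (h : Sp R a b) (ht : t ∈ Ioo a b) (hθ : θ ∈ Ioo (-20:ℝ) 20) :
    AnalyticAt ℝ (gg R t) θ :=
  (((h.an _ (sg_mem ht hθ)).comp (sg_an t θ)).sub (an_ap (h.aA ht hθ) (an_w t θ))).prod (h.aA ht hθ)

omit [CompleteSpace F] in
theorem Sp.col (h : Sp R a b) (ht : t ∈ Ioo a b) (hθ : θ ∈ Ioo (-20:ℝ) 20) {φ : ℝ}
    (hφ : φ ∈ Ioo (-20:ℝ) 20) (e : |φ - θ| = 2 * Real.pi) : gg R t φ ≠ gg R t θ := fun k => by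
  have w : exp (sg t φ) = exp (sg t θ) := by
    rw [exp_eq_exp_iff_exists_int]
    rcases abs_eq (by positivity) |>.1 e with q | q
    · exact ⟨1, by rw [sub_eq_iff_eq_add.1 q]; simp [sg]; ring⟩
    · exact ⟨-1, by rw [sub_eq_iff_eq_add.1 q]; simp [sg]; ring⟩
  simp only [gg, Prod.mk.injEq] at k
  rw [k.2, w, sub_left_inj] at k
  have := congrArg im (h.inj (sg_mem ht hφ) (sg_mem ht hθ) k.1)
  simp only [sg, add_im, ofReal_im, mul_im, ofReal_re, I_im, I_re] at this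
  rw [show φ - θ = 0 by linarith, abs_zero] at e
  linarith [Real.pi_pos]

theorem Sp.flat (h : Sp R a b) (ht : t ∈ Ioo a b) (hθ : θ ∈ Ioo (-20:ℝ) 20) :
    ∀ᶠ s in 𝓝[≠] θ, BB R (sg t s) (I * exp (sg t s)) ≠ 0 := by
  by_contra hn
  have z := AnalyticOnNhd.eqOn_zero_of_preconnected_of_frequently_eq_zero
    (f := fun s => BB R (sg t s) (I * exp (sg t s))) (fun s hs => an_ap (h.aB ht hs)
      (analyticAt_const.mul (an_w t s))) isPreconnected_Ioo hθ (by simpa using hn)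
  have d : ∀ s ∈ Ioo (-20:ℝ) 20, HasDerivAt (gg R t) 0 s := fun s hs => by
    have a := h.da ht hs
    rw [show BB R (sg t s) (I * exp (sg t s)) = 0 from z hs] at a
    refine (HasDerivAt.prodMk (((h.an _ (sg_mem ht hs)).differentiableAt.hasFDerivAt.comp_hasDerivAt s
      (sg_d t s)).sub (a.clm_apply (sg_d t s).cexp)) a).congr_deriv ?_
    simp [AA, mu, ← mul_assoc, ← exp_add]
  have p3 := Real.pi_le_four
  have p0 := Real.pi_pos
  exact h.col ht (θ := 0) (φ := 2 * Real.pi) (by norm_num) ⟨by linarith, by linarith⟩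
    (by rw [sub_zero, abs_of_pos (by positivity)])
    (isOpen_Ioo.is_const_of_deriv_eq_zero isPreconnected_Ioo
      (fun s hs => (d s hs).differentiableAt.differentiableWithinAt) (fun s hs => (d s hs).deriv)
      ⟨by linarith, by linarith⟩ (by norm_num))

theorem chord {ρ : ℂ → F} {w c : ℂ} (H : ∀ s ∈ Icc (0:ℝ) 1, Dv ρ (w + s • c))
    (z : ∀ s ∈ Icc (0:ℝ) 1, fderiv ℝ (fderiv ℝ ρ) (w + s • c) c = 0) :
    (∀ s ∈ Icc (0:ℝ) 1, fderiv ℝ ρ (w + s • c) = fderiv ℝ ρ w) ∧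
      ρ (w + c) - fderiv ℝ ρ w (w + c) = ρ w - fderiv ℝ ρ w w := by
  have d : ∀ s ∈ Icc (0:ℝ) 1, HasDerivAt (fun s : ℝ => fderiv ℝ ρ (w + s • c)) 0 s := fun s hs =>
    z s hs ▸ HasFDerivAt.comp_hasDerivAt (l := fderiv ℝ ρ) s
      (H s hs).an.fderiv.differentiableAt.hasFDerivAt (dl w c s)
  have k : ∀ s ∈ Icc (0:ℝ) 1, fderiv ℝ ρ (w + s • c) = fderiv ℝ ρ w := fun s hs => by
    simpa using constant_of_has_deriv_right_zero
      (fun s hs => (d s hs).continuousAt.continuousWithinAt)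
      (fun s hs => (d s (Ico_subset_Icc_self hs)).hasDerivWithinAt) s hs
  have d2 : ∀ s ∈ Icc (0:ℝ) 1, HasDerivAt (fun s : ℝ => ρ (w + s • c) - fderiv ℝ ρ w (w + s • c))
      0 s := fun s hs => by
    refine ((HasFDerivAt.comp_hasDerivAt (l := ρ) s (H s hs).an.differentiableAt.hasFDerivAt
      (dl w c s)).sub ((fderiv ℝ ρ w).hasFDerivAt.comp_hasDerivAt s (dl w c s))).congr_deriv ?_
    rw [k s hs, sub_self]
  refine ⟨k, ?_⟩
  have := constant_of_has_deriv_right_zero (fun s hs => (d2 s hs).continuousAt.continuousWithinAt)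
    (fun s hs => (d2 s (Ico_subset_Icc_self hs)).hasDerivWithinAt) 1 ⟨zero_le_one, le_rfl⟩
  simpa only [one_smul, zero_smul, add_zero] using this

end Pool.Agent.H.MP_60a66a_gt
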