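import Pool.Agent.H.MP_60a66a_gt.G

set_option autoImplicit false

namespace Pool.Agent.H.MP_60a66a_gt

open Set Filter Topology Complex

variable {F : Type*} [NormedAddCommGroup F] [InnerProductSpace ℝ F] [CompleteSpace F]
  {R : ℂ → F} {a b t : ℝ}

theorem Sp.dir (h : Sp R a b) (ht : t ∈ Ioo a b) {θ0 : ℝ} (h0 : θ0 ∈ Ioo (-20:ℝ) 20)
    (n : BB R (sg t θ0) ≠ 0) : ∃ δ : ℝ → ℝ, AnalyticOnNhd ℝ δ (Ioo (-20) 20) ∧ |δ θ0| ≤ Real.pi ∧
      ∀ θ ∈ Ioo (-20:ℝ) 20, BB R (sg t θ) (I * exp (↑(θ + δ θ / 2) * I)) = 0 := by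
  have c : ∀ θ ∈ Ioo (-20:ℝ) 20, ∀ x y : ℂ, AnalyticAt ℝ (fun θ => BB R (sg t θ) x y) θ :=
    fun θ hθ x y => an_ap (an_ap (h.aB ht hθ) analyticAt_const) analyticAt_const
  obtain ⟨E, aE, hE⟩ := unitq isOpen_Ioo isPreconnected_Ioo (nu := fun θ => nu (BB R (sg t θ)))
    (de := fun θ => de (BB R (sg t θ)))
    (fun θ hθ => (an_of (an_ip ((c θ hθ I I).sub (c θ hθ 1 1)) ((c θ hθ 1 1).add (c θ hθ I I)))).sub
      ((analyticAt_const.mul (an_of (an_ip (c θ hθ 1 I) ((c θ hθ 1 1).add (c θ hθ I I))))).mul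
        analyticAt_const))
    (fun θ hθ => an_ip ((c θ hθ 1 1).add (c θ hθ I I)) ((c θ hθ 1 1).add (c θ hθ I I)))
    (fun θ hθ => (h.kr (sg_mem ht hθ)).1) h0 ((h.kr (sg_mem ht h0)).2 n).1
  obtain ⟨δ, aδ, d0, hδ⟩ := lift (J := fun θ => -E θ * exp (↑(-2 * θ) * I))
    (fun θ hθ => (aE θ hθ).neg.mul ((analyticAt_cexp.restrictScalars (𝕜 := ℝ)).comp
      ((an_of (analyticAt_const.mul analyticAt_id)).mul analyticAt_const)))
    (fun θ hθ => by rw [norm_mul, norm_neg, (hE θ hθ).1, norm_exp_ofReal_mul_I, one_mul]) h0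
  refine ⟨δ, aδ, d0, fun θ hθ => ?_⟩
  by_cases z : BB R (sg t θ) = 0
  · simp [z]
  refine (((h.kr (sg_mem ht hθ)).2 z).2 _ (by
    rw [norm_mul, norm_I, norm_exp_ofReal_mul_I, one_mul])).2 ?_
  rw [(hE θ hθ).2, mul_pow, I_sq, sq, ← exp_add,
    show ↑(θ + δ θ / 2) * I + ↑(θ + δ θ / 2) * I = δ θ * I + ↑(2 * θ) * I by push_cast; ring,
    exp_add, hδ θ hθ, mul_assoc, ← exp_add]
  simp

theorem cap_mem {τ : ℝ} (hτ : |τ| < 10) {w : ℂ} (h1 : ‖w‖ < Real.exp b)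
    (h2 : Real.exp a < (w * exp (-(τ * I))).re) : w ∈ Wt a b τ := by
  have p := (Real.exp_pos a).trans h2
  have n : ‖w * exp (-(τ * I))‖ = ‖w‖ := by
    rw [norm_mul, ← neg_mul, ← ofReal_neg, norm_exp_ofReal_mul_I, mul_one]
  have q := re_le_norm (w * exp (-(τ * I)))
  have := abs_lt.1 hτ
  have := abs_le.1 (abs_arg_le_pi (w * exp (-(τ * I))))
  have := Real.pi_le_four
  refine ⟨Or.inl p, ?_, ?_, ?_⟩
  · simpa [br, log_re, -norm_mul] using (Real.lt_log_iff_exp_lt (p.trans_le q)).2 (h2.trans_le q)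
  · simpa [br, log_re, -norm_mul] using (Real.log_lt_iff_lt_exp (p.trans_le q)).2 (n ▸ h1)
  · simp only [br, add_im, log_im, mul_im, ofReal_re, I_im, ofReal_im, I_re, abs_lt]
    constructor <;> linarith

theorem w_pm (t θ δ : ℝ) : exp (sg t (θ + δ)) - exp (sg t θ) =
    (2 * Real.exp t * Real.sin (δ / 2)) • (I * exp (↑(θ + δ / 2) * I)) ∧
    I * exp (sg t (θ + δ)) + I * exp (sg t θ) =
      (2 * Real.exp t * Real.cos (δ / 2)) • (I * exp (↑(θ + δ / 2) * I)) := by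
  have e1 : exp (sg t (θ + δ)) = Real.exp t * exp (↑(θ + δ / 2) * I) * exp (↑(δ / 2) * I) := by
    rw [ofReal_exp, ← exp_add, ← exp_add, sg]; congr 1; push_cast; ring
  have e2 : exp (sg t θ) = Real.exp t * exp (↑(θ + δ / 2) * I) * exp (-↑(δ / 2) * I) := by
    rw [ofReal_exp, ← exp_add, ← exp_add, sg]; congr 1; push_cast; ring
  rw [e1, e2, exp_mul_I (δ / 2 : ℝ), exp_mul_I (-(δ / 2 : ℝ)), cos_neg, sin_neg, real_smul, real_smul]
  push_cast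
  constructor <;> ring

theorem Sp.near (h : Sp R a b) (ht : t ∈ Ioo a b) {θ0 : ℝ} (h0 : |θ0| < 2)
    (n : BB R (sg t θ0) ≠ 0) {δ : ℝ → ℝ} (aδ : AnalyticOnNhd ℝ δ (Ioo (-20) 20))
    (d0 : |δ θ0| ≤ Real.pi)
    (hδ : ∀ θ ∈ Ioo (-20:ℝ) 20, BB R (sg t θ) (I * exp (↑(θ + δ θ / 2) * I)) = 0)
    (ms : Real.exp a < Real.exp t * Real.cos (δ θ0 / 2)) :
    (∀ᶠ θ in 𝓝 θ0, gg R t (θ + δ θ) = gg R t θ) ∧ ∀ᶠ θ in 𝓝[≠] θ0, 1 + deriv δ θ < 0 ∧
      exp (↑(δ (θ + δ θ) + δ θ) * I) = 1 := by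
  have p4 := Real.pi_le_four
  have p0 := Real.pi_pos
  have b0 := abs_lt.1 h0
  have b1 := abs_le.1 d0
  have m0 : θ0 ∈ Ioo (-20:ℝ) 20 := ⟨by linarith, by linarith⟩
  set τ := θ0 + δ θ0 / 2 with hτ
  set C := {w : ℂ | ‖w‖ < Real.exp b ∧ Real.exp a < (w * exp (-(τ * I))).re}
  have cC : Convex ℝ C := by
    refine Convex.inter (s := {w : ℂ | ‖w‖ < Real.exp b}) ?_ (convex_halfSpace_gt
      (f := fun w : ℂ => (w * exp (-(τ * I))).re) ⟨fun x y => by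
      rw [add_mul, add_re], fun c x => by rw [smul_mul_assoc, smul_re]⟩ _)
    simpa [Metric.ball] using convex_ball (0:ℂ) (Real.exp b)
  have oC : IsOpen C := (isOpen_lt continuous_norm continuous_const).inter
    (isOpen_lt continuous_const (by fun_prop : Continuous fun w : ℂ => (w * exp (-(τ * I))).re))
  have CW : ∀ w ∈ C, w ∈ Wt a b τ := fun w hw =>
    cap_mem (by rw [abs_lt]; constructor <;> linarith) hw.1 hw.2
  have mC : ∀ θ : ℝ, |θ - τ| = |δ θ0 / 2| → exp (sg t θ) ∈ C := fun θ e => ⟨by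
    simpa [norm_exp, sg] using ht.2, by
    rw [← Real.cos_abs, ← e, Real.cos_abs] at ms
    rw [← exp_add, exp_re]
    simpa [sg, sub_eq_add_neg] using ms⟩
  have cδ := (aδ θ0 m0).continuousAt
  have cφ : ContinuousAt (fun θ => θ + δ θ) θ0 := continuousAt_id.add cδ
  set ρ := R ∘ br τ
  have ev : ∀ᶠ θ in 𝓝 θ0, (θ ∈ Ioo (-20:ℝ) 20 ∧ θ + δ θ ∈ Ioo (-20:ℝ) 20) ∧
      (exp (sg t θ) ∈ C ∧ exp (sg t (θ + δ θ)) ∈ C) ∧
      (|θ - τ| < Real.pi ∧ |θ + δ θ - τ| < Real.pi) ∧ BB R (sg t θ) ≠ 0 := by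
    refine (Eventually.and (isOpen_Ioo.mem_nhds m0)
      (cφ.eventually (isOpen_Ioo.mem_nhds ⟨by linarith, by linarith⟩))).and
      ((((an_w t θ0).continuousAt.eventually (oC.mem_nhds (mC _ ?_))).and
        (((an_w t _).continuousAt.comp cφ).eventually (oC.mem_nhds (mC _ ?_)))).and
        (((ContinuousAt.eventually_lt (by fun_prop) continuousAt_const ?_).and
          (ContinuousAt.eventually_lt (by fun_prop) continuousAt_const ?_)).and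
          ((h.aB ht m0).continuousAt.eventually_ne n)))
    · rw [hτ, sub_add_cancel_left, abs_neg]
    · rw [hτ]; congr 1; ring
    · rw [abs_lt]; constructor <;> linarith
    · rw [abs_lt]; constructor <;> linarith
  set X := fun (θ s : ℝ) => exp (sg t θ) + s • (exp (sg t (θ + δ θ)) - exp (sg t θ))
  have k : ∀ᶠ θ in 𝓝 θ0, gg R t (θ + δ θ) = gg R t θ ∧ ∀ s ∈ Icc (0:ℝ) 1, X θ s ∈ C ∧
      fderiv ℝ ρ (X θ s) = AA R (sg t θ) ∧
      fderiv ℝ (fderiv ℝ ρ) (X θ s) (I * exp (↑(θ + δ θ / 2) * I)) = 0 := by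
    filter_upwards [ev] with θ ⟨⟨a1, a2⟩, ⟨a3, a4⟩, ⟨a5, a6⟩, a7⟩
    have e1 := (br_exp (τ := τ) (ζ := sg t θ) (by simpa [sg] using a5)).2
    have e2 := (br_exp (τ := τ) (ζ := sg t (θ + δ θ)) (by simpa [sg] using a6)).2
    have mX : ∀ s ∈ Icc (0:ℝ) 1, X θ s ∈ C := fun s hs => cC.add_smul_sub_mem a3 a4 hs
    have D := fun s hs => h.dv (CW _ (mX s hs))
    have z0 : fderiv ℝ (fderiv ℝ ρ) (exp (sg t θ)) (I * exp (↑(θ + δ θ / 2) * I)) = 0 := by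
      rw [h.d2 (CW _ a3), e1, hδ θ a1]
    have z : ∀ s ∈ Icc (0:ℝ) 1,
        fderiv ℝ (fderiv ℝ ρ) (X θ s) (I * exp (↑(θ + δ θ / 2) * I)) = 0 := fun s hs => by
      by_cases c : exp (sg t (θ + δ θ)) - exp (sg t θ) = 0
      · simpa only [X, c, smul_zero, add_zero] using z0
      have := rule h.h3 c D (by rwa [h.d2 (CW _ a3), e1]) (by
        rw [(w_pm t θ (δ θ)).1, map_smul, z0, smul_zero]) s hs
      rw [show X θ s = _ from rfl]
      generalize fderiv ℝ (fderiv ℝ ρ) _ = S at this ⊢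
      rw [(w_pm t θ (δ θ)).1] at this c
      rw [map_smul] at this
      exact (smul_eq_zero.1 this).resolve_left (left_ne_zero_of_smul c)
    obtain ⟨c1, c2⟩ := chord D fun s hs => by
      have := z s hs
      rw [show X θ s = _ from rfl] at this
      generalize fderiv ℝ (fderiv ℝ (R ∘ br τ)) _ = S at this ⊢
      rw [(w_pm t θ (δ θ)).1, map_smul, this, smul_zero]
    have c3 := c1 1 ⟨zero_le_one, le_rfl⟩
    rw [one_smul, add_sub_cancel, h.d1 (CW _ a4), h.d1 (CW _ a3), e1, e2] at c3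
    rw [add_sub_cancel, h.d1 (CW _ a3)] at c2
    simp only [Function.comp, e1, e2] at c2
    exact ⟨by rw [gg, gg, c3, c2], fun s hs => ⟨mX s hs, by
      rw [c1 s hs, h.d1 (CW _ a3), e1], z s hs⟩⟩
  refine ⟨k.mono fun _ a => a.1, ?_⟩
  filter_upwards [h.flat ht m0, nhdsWithin_le_nhds ev, nhdsWithin_le_nhds k.eventually_nhds]
    with θ nz ⟨⟨a1, a2⟩, ⟨_, a4⟩, ⟨_, a6⟩, _⟩ k
  have e2 := (br_exp (τ := τ) (ζ := sg t (θ + δ θ)) (by simpa [sg] using a6)).2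
  have dδ := (aδ θ a1).differentiableAt.hasDerivAt
  have dX : ∀ s ∈ Icc (0:ℝ) 1, fderiv ℝ (fderiv ℝ ρ) (X θ s) (exp (sg t θ) * I + s •
      (exp (sg t (θ + δ θ)) * ((1 + deriv δ θ) • I) - exp (sg t θ) * I)) =
      BB R (sg t θ) (I * exp (sg t θ)) := fun s hs =>
    (HasFDerivAt.comp_hasDerivAt (l := fderiv ℝ ρ) (f := fun θ => X θ s) θ
      (h.dv (CW _ (k.self_of_nhds.2 s hs).1)).an.fderiv.differentiableAt.hasFDerivAt
      ((sg_d t θ).cexp.add (((((sg_d t _).scomp θ ((hasDerivAt_id θ).add dδ)).cexp).sub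
        (sg_d t θ).cexp).const_smul s))).unique ((h.da ht a1).congr_of_eventuallyEq
          (k.mono fun _ a => (a.2 s hs).2.1))
  have lt : 1 + deriv δ θ < 0 := by
    by_contra hn
    push Not at hn
    set p := 1 + deriv δ θ
    have hs : (1 + p)⁻¹ ∈ Icc (0:ℝ) 1 := ⟨by positivity, inv_le_one_of_one_le₀ (by linarith)⟩
    refine nz ?_
    rw [← dX _ hs, show exp (sg t θ) * I + (1 + p)⁻¹ • (exp (sg t (θ + δ θ)) * (p • I) -
      exp (sg t θ) * I) = (p / (1 + p)) • (I * exp (sg t (θ + δ θ)) + I * exp (sg t θ)) by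
        have : (1 + p : ℂ) ≠ 0 := by exact_mod_cast (by positivity : 1 + p ≠ 0)
        simp only [real_smul]; push_cast; field_simp; ring,
      (w_pm t θ (δ θ)).2, map_smul, map_smul, (k.self_of_nhds.2 _ hs).2.2, smul_zero, smul_zero]
  refine ⟨lt, ?_⟩
  have z := (k.self_of_nhds.2 1 ⟨zero_le_one, le_rfl⟩).2.2
  have n2 := dX 1 ⟨zero_le_one, le_rfl⟩
  simp only [X, one_smul, add_sub_cancel] at z n2
  rw [h.d2 (CW _ a4), e2] at z n2
  obtain ⟨d, K⟩ := (h.kr (sg_mem ht a2)).2 fun e => nz (by rw [← n2, e]; rfl)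
  have u : ∀ x : ℝ, ‖I * exp (x * I)‖ = 1 := fun x => by
    rw [norm_mul, norm_I, norm_exp_ofReal_mul_I, one_mul]
  have := ((K _ (u _)).1 z).symm.trans ((K _ (u _)).1 (hδ _ a2))
  rw [mul_right_inj' (by simpa using d), mul_pow, mul_pow, mul_right_inj' (by simp), sq, sq,
    ← exp_add, ← exp_add, eq_comm, ← div_eq_one_iff_eq (exp_ne_zero _), ← exp_sub] at this
  rw [← this]; congr 1; push_cast; ring

theorem Sp.spiral (h : Sp R a b) (ht : t ∈ Ioo a b) {θ0 : ℝ} (h0 : |θ0| < 2)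
    (n : BB R (sg t θ0) ≠ 0) : ∃ v : ℂ, ‖v‖ = 1 ∧ BB R (sg t θ0) v = 0 ∧
      |((starRingEnd ℂ) v * exp (sg t θ0)).im| ≤ Real.exp a := by
  have p4 := Real.pi_lt_d2
  have p0 := Real.pi_pos
  have b0 := abs_lt.1 h0
  have m0 : θ0 ∈ Ioo (-20:ℝ) 20 := ⟨by linarith, by linarith⟩
  obtain ⟨δ, aδ, d0, hδ⟩ := h.dir ht m0 n
  have b1 := abs_le.1 d0
  refine ⟨_, by rw [norm_mul, norm_I, norm_exp_ofReal_mul_I, one_mul], hδ θ0 m0, ?_⟩
  by_contra hn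
  obtain ⟨k1, k2⟩ := h.near ht h0 n aδ d0 hδ (by
    rw [map_mul, conj_I, ← exp_conj, mul_assoc, ← exp_add, mul_im, exp_re, not_le] at hn
    rw [← Real.cos_neg, ← abs_of_nonneg (a := Real.cos _)
      (Real.cos_nonneg_of_mem_Icc ⟨by linarith, by linarith⟩)]
    simpa [sg, abs_mul, Real.abs_exp, conj_ofNat] using hn)
  obtain ⟨θ1, l1, l2, l3, l4⟩ : ∃ θ1, θ0 < θ1 ∧ θ1 ≤ θ0 + 3 * Real.pi ∧
      (∀ θ ∈ Icc θ0 θ1, |δ θ| ≤ 2 * Real.pi) ∧
      (|δ θ1| = 2 * Real.pi ∨ θ1 = θ0 + 3 * Real.pi) := by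
    have c : ContinuousOn (fun θ => |δ θ|) (Icc θ0 (θ0 + 3 * Real.pi)) :=
      (aδ.continuousOn.mono fun θ hθ => ⟨by linarith [hθ.1], by linarith [hθ.2]⟩).abs
    have iv : ∀ θ ∈ Icc θ0 (θ0 + 3 * Real.pi), 2 * Real.pi ≤ |δ θ| →
        ∃ s ∈ Icc θ0 θ, |δ s| = 2 * Real.pi := fun θ hθ e =>
      intermediate_value_Icc hθ.1 (c.mono (Icc_subset_Icc_right hθ.2)) ⟨by linarith, e⟩
    by_cases ex : (Icc θ0 (θ0 + 3 * Real.pi) ∩ (fun θ => |δ θ|) ⁻¹' {2 * Real.pi}).Nonempty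
    · obtain ⟨θ1, ⟨m, e⟩, le⟩ := (isCompact_Icc.of_isClosed_subset
        (c.preimage_isClosed_of_isClosed isClosed_Icc isClosed_singleton)
        inter_subset_left).exists_isLeast ex
      refine ⟨θ1, lt_of_le_of_ne m.1 (by rintro rfl; simp at e; linarith), m.2, fun θ hθ => ?_,
        Or.inl e⟩
      by_contra hc
      obtain ⟨s, hs, es⟩ := iv θ ⟨hθ.1, hθ.2.trans m.2⟩ (not_le.1 hc).le
      have := le ⟨⟨hs.1, hs.2.trans (hθ.2.trans m.2)⟩, es⟩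
      rw [show θ = s by linarith [hs.2, hθ.2]] at hc
      exact hc es.le
    · refine ⟨_, by linarith, le_rfl, fun θ hθ => ?_, Or.inr rfl⟩
      by_contra hc
      obtain ⟨s, hs, es⟩ := iv θ hθ (not_le.1 hc).le
      exact ex ⟨s, ⟨hs.1, hs.2.trans hθ.2⟩, es⟩
  have m1 : ∀ θ ∈ Icc θ0 θ1, θ ∈ Ioo (-20:ℝ) 20 := fun θ hθ =>
    ⟨by linarith [hθ.1], by linarith [hθ.2]⟩
  have m2 : ∀ θ ∈ Icc θ0 θ1, θ + δ θ ∈ Ioo (-20:ℝ) 20 := fun θ hθ => by
    have := abs_le.1 (l3 θ hθ)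
    exact ⟨by linarith [hθ.1], by linarith [hθ.2]⟩
  have aφ : AnalyticOnNhd ℝ (fun θ => θ + δ θ) (Icc θ0 θ1) := fun θ hθ =>
    analyticAt_id.add (aδ θ (m1 θ hθ))
  have i0 : θ0 ∈ Icc θ0 θ1 := left_mem_Icc.2 l1.le
  have i1 : θ1 ∈ Icc θ0 θ1 := right_mem_Icc.2 l1.le
  rcases l4 with l4 | l4
  · exact h.col ht (m1 _ i1) (m2 _ i1) (by rwa [add_sub_cancel_left])
      (AnalyticOnNhd.eqOn_of_preconnected_of_eventuallyEq (f := fun θ => gg R t (θ + δ θ))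
        (fun θ hθ => AnalyticAt.comp (f := fun θ => θ + δ θ) (h.ag ht (m2 θ hθ)) (aφ θ hθ))
        (fun θ hθ => h.ag ht (m1 θ hθ)) isPreconnected_Icc i0 k1 i1)
  set f := fun θ => δ (θ + δ θ) + δ θ
  have af : AnalyticOnNhd ℝ f (Icc θ0 θ1) := fun θ hθ =>
    (AnalyticAt.comp (f := fun θ => θ + δ θ) (aδ _ (m2 θ hθ)) (aφ θ hθ)).add (aδ θ (m1 θ hθ))
  have cf := (af θ0 i0).continuousAt
  have e0 : exp (f θ0 * I) = 1 := tendsto_nhds_unique_of_eventuallyEq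
    ((by fun_prop : ContinuousAt (fun θ => exp (f θ * I)) θ0).tendsto.mono_left nhdsWithin_le_nhds)
    tendsto_const_nhds (k2.mono fun _ a => a.2)
  have ef := af.eqOn_of_preconnected_of_frequently_eq (g := fun _ => f θ0) analyticOnNhd_const
    isPreconnected_Icc i0 (Eventually.frequently (by
      filter_upwards [k2, nhdsWithin_le_nhds (Metric.tendsto_nhds.1 cf _ Real.two_pi_pos)] with θ a b
      have c := congrArg re (show exp (↑(f θ - f θ0) * I) = 1 by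
        rw [ofReal_sub, sub_mul, exp_sub, e0, div_one]; exact a.2)
      rw [exp_ofReal_mul_I_re, one_re] at c
      have := abs_lt.1 (show |f θ - f θ0| < 2 * Real.pi from b)
      exact sub_eq_zero.1 ((Real.cos_eq_one_iff_of_lt_of_lt this.1 this.2).1 c)))
  rcases ContinuousOn.strictMonoOn_of_injOn_Icc' l1.le aφ.continuousOn (fun x hx y hy e => by
    have a := ef hx
    have b := ef hy
    simp only [f] at a b e
    rw [e] at a
    linarith) with mo | mo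
  · obtain ⟨θ, a, b⟩ := ((k2.filter_mono (nhdsWithin_mono _ fun _ a => ne_of_gt a :
      𝓝[>] θ0 ≤ _)).and (Ioo_mem_nhdsGT l1)).exists
    have d := (hasDerivAt_id θ).add (aδ θ (m1 θ (Ioo_subset_Icc_self b))).differentiableAt.hasDerivAt
    refine a.1.not_ge (ge_of_tendsto (hasDerivAt_iff_tendsto_slope_left_right.1 d).2 ?_)
    filter_upwards [Ioo_mem_nhdsGT b.2] with s hs
    rw [slope_def_field]
    exact div_nonneg (sub_nonneg.2 (mo.monotoneOn (Ioo_subset_Icc_self b)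
      ⟨b.1.le.trans hs.1.le, hs.2.le⟩ hs.1.le)) (by linarith [hs.1])
  · have := mo i0 i1 l1
    have := abs_le.1 (l3 _ i1)
    simp only at *
    linarith

end Pool.Agent.H.MP_60a66a_gt
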