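import Pool.Agent.H.MP_60a66a_gt.J

set_option autoImplicit false

namespace Pool.Agent.H.MP_60a66a_gt

open Set Filter Topology Complex

def DD : Set ℂ := {z | |z.re| < 40 ∧ |z.im| < 2 + 100 * |z.re|}

noncomputable def Ph (z : ℂ) : ℂ := (1 + exp z)⁻¹

theorem DD_open : IsOpen DD := (isOpen_lt continuous_re.abs continuous_const).inter
  (isOpen_lt continuous_im.abs (by fun_prop : Continuous fun z : ℂ => 2 + 100 * |z.re|))

theorem DD_star : StarConvex ℝ 0 DD := by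
  refine starConvex_zero_iff.2 fun z hz c c0 c1 => ?_
  obtain ⟨a, b⟩ := hz
  simp only [DD, mem_setOf_eq, smul_re, smul_im, smul_eq_mul, abs_mul, abs_of_nonneg c0]
  refine ⟨lt_of_le_of_lt (mul_le_of_le_one_left (abs_nonneg _) c1) a, ?_⟩
  rcases c0.eq_or_lt with rfl | c0
  · norm_num
  · nlinarith

theorem DD_ne {z : ℂ} (hz : z ∈ closure DD) : 1 + exp z ≠ 0 := fun e => by
  have : z ∈ {z : ℂ | |z.im| ≤ 2 + 100 * |z.re|} := closure_minimal (fun z hz => hz.2.le)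
    (isClosed_le continuous_im.abs (by fun_prop)) hz
  have e' := eq_neg_of_add_eq_zero_right e
  have r := congrArg norm e'
  rw [norm_exp, norm_neg, norm_one, Real.exp_eq_one_iff] at r
  have c := congrArg re e'
  simp only [exp_re, r, Real.exp_zero, one_mul, neg_re, one_re, mem_setOf_eq, abs_zero] at c this
  have := Real.cos_lt_cos_of_nonneg_of_le_pi (abs_nonneg z.im) le_rfl
    (by linarith [Real.pi_gt_three])
  rw [Real.cos_abs, c, Real.cos_pi] at this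
  exact lt_irrefl _ this

theorem Ph_an {z : ℂ} (hz : z ∈ closure DD) : AnalyticAt ℝ Ph z :=
  ((analyticAt_const.add analyticAt_cexp).inv (DD_ne hz)).restrictScalars

theorem Ph_inj {z : ℂ} (hz : z ∈ closure DD) : Function.Injective (fderiv ℝ Ph z) := by
  have n := DD_ne hz
  rw [show fderiv ℝ Ph z = _ from
    ((((hasDerivAt_exp z).const_add 1).inv n).hasFDerivAt.restrictScalars ℝ).fderiv]
  refine (injective_iff_map_eq_zero _).2 fun v hv => ?_
  simpa [n] using hv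

variable {F : Type*} [NormedAddCommGroup F] [InnerProductSpace ℝ F] [CompleteSpace F]

structure Ok (r : ℂ → F) : Prop where
  h3 : Module.finrank ℝ F = 3
  an : ∀ z ∈ DD, AnalyticAt ℝ r z
  iso : ∀ z ∈ DD, ∀ v, ‖fderiv ℝ r z v‖ = ‖fderiv ℝ Ph z v‖
  inj : InjOn r DD

variable {r : ℂ → F}

omit [CompleteSpace F] in
theorem Ok.pull (h : Ok r) {Z g : ℂ → ℂ} {ζ : ℂ} (a : AnalyticAt ℝ Z ζ) (m : Z ζ ∈ DD)
    (e : Ph ∘ Z =ᶠ[𝓝 ζ] g) (v : ℂ) : ‖fderiv ℝ (r ∘ Z) ζ v‖ = ‖fderiv ℝ g ζ v‖ := by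
  rw [← e.fderiv_eq, fderiv_comp ζ (h.an _ m).differentiableAt a.differentiableAt,
    fderiv_comp ζ (Ph_an (subset_closure m)).differentiableAt a.differentiableAt]
  exact h.iso _ m _

omit [CompleteSpace F] in
theorem Ok.neg (h : Ok r) : Ok (r ∘ Neg.neg) := by
  have m : ∀ z ∈ DD, -z ∈ DD := fun z hz => by simpa [DD] using hz
  refine ⟨h.h3, fun z hz => (h.an _ (m z hz)).comp analyticAt_id.neg, fun z hz v => ?_,
    fun x hx y hy e => neg_injective (h.inj (m x hx) (m y hy) e)⟩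
  rw [h.pull (Z := Neg.neg) (g := fun z => 1 - Ph z) analyticAt_id.neg (m z hz) ?_, fderiv_const_sub]
  · simp
  filter_upwards [DD_open.mem_nhds hz] with y hy
  have := DD_ne (subset_closure hy)
  have := exp_ne_zero y
  simp only [Function.comp, Ph, exp_neg]
  rw [show 1 + (exp y)⁻¹ = (1 + exp y) / exp y by field_simp; ring]
  field_simp
  ring

noncomputable def ps (w : ℂ) : ℂ := log (1 - w) - log w

theorem Ph_lg {w ζ : ℂ} (e : exp ζ = w) (n : 1 - w ≠ 0) : Ph (log (1 - w) - ζ) = w := by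
  have := exp_ne_zero ζ
  rw [Ph, exp_sub, exp_log n, e] at *
  field_simp
  ring

theorem Ok.sp (h : Ok r) : Sp (r ∘ fun ζ => log (1 - exp ζ) - ζ) (Real.log (1 / 100))
    (Real.log (1 / 3)) := by
  have k : ∀ ζ ∈ St (Real.log (1 / 100)) (Real.log (1 / 3)), 0 < (1 - exp ζ).re ∧
      log (1 - exp ζ) - ζ ∈ DD := fun ζ ⟨a, b, c⟩ => by
    have n : ‖exp ζ‖ < 1 / 3 := by rwa [norm_exp, ← Real.lt_log_iff_exp_lt (by norm_num)]
    have q := abs_le.1 (abs_re_le_norm (exp ζ))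
    have l1 : 2 / 3 < ‖1 - exp ζ‖ := by
      have := norm_sub_norm_le 1 (exp ζ); rw [norm_one] at this; linarith
    have l2 : ‖1 - exp ζ‖ < 2 := by
      have := norm_sub_le 1 (exp ζ); rw [norm_one] at this; linarith
    have l3 := Real.log_lt_log (by norm_num) l1
    have l4 := Real.log_le_sub_one_of_pos (lt_trans (by norm_num) l1)
    have l5 : Real.log (2 / 3) = Real.log 2 + Real.log (1 / 3) := by
      rw [← Real.log_mul] <;> norm_num
    have l6 := Real.log_two_gt_d9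
    have l7 : Real.log (1 / 100) = -(2 * Real.log 10) := by
      rw [one_div, Real.log_inv, show (100:ℝ) = 10 ^ 2 by norm_num, Real.log_pow]; norm_num
    have l8 := Real.log_le_sub_one_of_pos (show (0:ℝ) < 10 by norm_num)
    have l9 := abs_le.1 (abs_arg_le_pi (1 - exp ζ))
    have := Real.pi_le_four
    have := abs_lt.1 c
    refine ⟨by rw [sub_re, one_re]; linarith, ?_⟩
    simp only [DD, mem_setOf_eq, sub_re, sub_im, log_re, log_im]
    rw [abs_of_pos (by linarith), abs_lt]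
    exact ⟨by linarith, by linarith, by linarith⟩
  have e : ∀ ζ ∈ St (Real.log (1 / 100)) (Real.log (1 / 3)), Ph (log (1 - exp ζ) - ζ) = exp ζ :=
    fun ζ hζ => Ph_lg rfl fun e => by simpa [e] using (k ζ hζ).1
  have a : ∀ ζ ∈ St (Real.log (1 / 100)) (Real.log (1 / 3)),
      AnalyticAt ℝ (fun ζ => log (1 - exp ζ) - ζ) ζ := fun ζ hζ =>
    (((analyticAt_const.sub analyticAt_cexp).clog (Or.inl (k ζ hζ).1)).sub
      analyticAt_id).restrictScalars
  refine ⟨h.h3, fun ζ hζ => AnalyticAt.comp (h.an _ (k ζ hζ).2) (a ζ hζ), fun ζ hζ v => ?_,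
    fun x hx y hy q => ?_⟩
  · rw [h.pull (g := exp) (a ζ hζ) (k ζ hζ).2 (by
      filter_upwards [(St_open _ _).mem_nhds hζ] with y hy using e y hy),
      ((hasDerivAt_exp ζ).hasFDerivAt.restrictScalars ℝ).fderiv]
    simp [mul_comm]
  · have q1 := h.inj (k x hx).2 (k y hy).2 q
    have q2 := e x hx
    rw [q1, e y hy] at q2
    rw [q2] at q1
    exact sub_right_injective q1

def W0 : Set ℂ := {w | |w.im| < w.re ∧ |w.im| < 1 - w.re ∧ 1 / 100 < w.re ∧ w.re < 99 / 100}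

theorem W0_open : IsOpen W0 := (isOpen_lt continuous_im.abs continuous_re).inter
  ((isOpen_lt continuous_im.abs (by fun_prop : Continuous fun z : ℂ => 1 - z.re)).inter
    ((isOpen_lt continuous_const continuous_re).inter (isOpen_lt continuous_re continuous_const)))

theorem arg_lt {w : ℂ} (h : |w.im| < w.re) : |arg w| < 1 := by
  have p := (abs_nonneg _).trans_lt h
  have a := abs_lt.1 (abs_arg_lt_pi_div_two_iff.2 (Or.inl p))
  have b := abs_lt.1 h
  rw [← Real.arctan_tan a.1 a.2, tan_arg, abs_lt]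
  have c := Real.arctan_strictMono ((lt_div_iff₀ p).2 (by linarith : -1 * w.re < w.im))
  have d := Real.arctan_strictMono ((div_lt_iff₀ p).2 (by linarith : w.im < 1 * w.re))
  rw [Real.arctan_neg] at c
  rw [Real.arctan_one] at c d
  constructor <;> linarith [Real.pi_le_four]

theorem lg_bd {w : ℂ} (h : w ∈ W0) : |Real.log ‖w‖| < 20 := by
  obtain ⟨a, b, c, d⟩ := h
  have l1 := re_le_norm w
  have l2 := norm_le_abs_re_add_abs_im w
  rw [abs_of_pos (by linarith : 0 < w.re)] at l2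
  have l3 := Real.log_lt_log (by norm_num) (c.trans_le l1)
  have l4 := Real.log_le_sub_one_of_pos (by linarith : 0 < ‖w‖)
  have l7 : Real.log (1 / 100) = -(2 * Real.log 10) := by
    rw [one_div, Real.log_inv, show (100:ℝ) = 10 ^ 2 by norm_num, Real.log_pow]; norm_num
  have l8 := Real.log_le_sub_one_of_pos (show (0:ℝ) < 10 by norm_num)
  rw [abs_lt]; constructor <;> linarith

theorem W0_sub {w : ℂ} (h : w ∈ W0) : 1 - w ∈ W0 := by
  obtain ⟨a, b, c, d⟩ := h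
  simp only [W0, mem_setOf_eq, sub_im, sub_re, one_im, one_re, zero_sub, abs_neg]
  exact ⟨b, by linarith, by linarith, by linarith⟩

theorem ps_mem {w : ℂ} (h : w ∈ W0) : ps w ∈ DD := by
  have a := abs_lt.1 (lg_bd h)
  have b := abs_lt.1 (lg_bd (W0_sub h))
  have c := abs_lt.1 (arg_lt h.1)
  have d := abs_lt.1 (arg_lt (W0_sub h).1)
  simp only [DD, ps, mem_setOf_eq, sub_re, sub_im, log_re, log_im]
  have := abs_nonneg (Real.log ‖1 - w‖ - Real.log ‖w‖)
  rw [abs_lt, abs_lt]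
  exact ⟨⟨by linarith, by linarith⟩, by linarith, by linarith⟩

theorem W0_sl {w : ℂ} (h : w ∈ W0) : w ∈ slitPlane := Or.inl ((abs_nonneg _).trans_lt h.1)

theorem Ok.dv (h : Ok r) {w : ℂ} (hw : w ∈ W0) : Dv (r ∘ ps) w := by
  have a : ∀ w ∈ W0, AnalyticAt ℝ ps w := fun w hw =>
    (((analyticAt_const.sub analyticAt_id).clog (W0_sl (W0_sub hw))).sub
      (analyticAt_clog (W0_sl hw))).restrictScalars
  refine ⟨(h.an _ (ps_mem hw)).comp (a w hw), ?_⟩
  filter_upwards [W0_open.mem_nhds hw] with z hz v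
  rw [h.pull (g := id) (a z hz) (ps_mem hz) (by
    filter_upwards [W0_open.mem_nhds hz] with y hy
    exact Ph_lg (exp_log (slitPlane_ne_zero (W0_sl hy))) (slitPlane_ne_zero (W0_sl (W0_sub hy))))]
  simp

theorem Ok.bb (h : Ok r) {w : ℂ} (hw : w ∈ W0) (n : ‖w‖ < 1 / 3) :
    Real.log ‖w‖ ∈ Ioo (Real.log (1 / 100)) (Real.log (1 / 3)) ∧
    exp (sg (Real.log ‖w‖) (arg w)) = w ∧ fderiv ℝ (fderiv ℝ (r ∘ ps)) w =
      BB (r ∘ fun ζ => log (1 - exp ζ) - ζ) (sg (Real.log ‖w‖) (arg w)) := by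
  have l := hw.2.2.1.trans_le (re_le_norm w)
  have m : w ∈ Wt (Real.log (1 / 100)) (Real.log (1 / 3)) 0 := cap_mem (by norm_num)
    (by rwa [Real.exp_log (by norm_num)]) (by rw [Real.exp_log (by norm_num)]; simpa using hw.2.2.1)
  refine ⟨⟨Real.log_lt_log (by norm_num) l, Real.log_lt_log (by linarith) n⟩,
    exp_log (slitPlane_ne_zero (W0_sl hw)), ?_⟩
  rw [show sg (Real.log ‖w‖) (arg w) = br 0 w by simp [br]; rfl, ← h.sp.d2 m]
  refine EventuallyEq.fderiv_eq (EventuallyEq.fderiv ?_)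
  filter_upwards [W0_open.mem_nhds hw] with y hy
  simp [br, ps, exp_log (slitPlane_ne_zero (W0_sl hy))]

theorem Ok.hit (h : Ok r) {w : ℂ} (hw : w ∈ W0) (n : ‖w‖ < 1 / 3)
    (z : fderiv ℝ (fderiv ℝ (r ∘ ps)) w ≠ 0) : ∃ v : ℂ, ‖v‖ = 1 ∧
      fderiv ℝ (fderiv ℝ (r ∘ ps)) w v = 0 ∧ |((starRingEnd ℂ) v * w).im| ≤ 1 / 100 := by
  obtain ⟨a, b, c⟩ := h.bb hw n
  have := h.sp.spiral a ((arg_lt hw.1).trans one_lt_two) (c ▸ z)
  rwa [← c, b, Real.exp_log (by norm_num)] at this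

theorem Ok.mir (h : Ok r) {w : ℂ} (hw : w ∈ W0) (v c : ℂ) :
    fderiv ℝ (fderiv ℝ ((r ∘ Neg.neg) ∘ ps)) (1 - w) v c = fderiv ℝ (fderiv ℝ (r ∘ ps)) w v c := by
  have e : (r ∘ Neg.neg) ∘ ps = fun z => (r ∘ ps) (1 - z) := by
    ext z; simp [ps]
  have d : ∀ {G : Type _} [NormedAddCommGroup G] [NormedSpace ℝ G] (f : ℂ → G) (z : ℂ),
      fderiv ℝ (fun z => f (1 - z)) z = -fderiv ℝ f (1 - z) := fun f z => by
    rw [show (fun z => f (1 - z)) = (fun y => f (1 + y)) ∘ ContinuousLinearEquiv.neg ℝ by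
      ext z; simp [sub_eq_add_neg], ContinuousLinearEquiv.comp_right_fderiv, fderiv_comp_add_left]
    ext v; simp [sub_eq_add_neg]
  rw [e, funext (d (r ∘ ps)), fderiv_fun_neg, d (fderiv ℝ (r ∘ ps))]
  simp

theorem num1 {a b x y : ℝ} (u1 : 29 / 100 < a) (u2 : a < 295 / 1000) (u3 : 4 / 100 < b)
    (u4 : b < 5 / 100) (n1 : x ^ 2 + y ^ 2 = 1) (vp : 0 ≤ x)
    (vb : -(1 / 100) ≤ x * b + -y * a ∧ x * b + -y * a ≤ 1 / 100) :
    x ≤ 1 ∧ y < 21 / 100 ∧ 97 / 100 < x ∧ 9 / 100 < y := by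
  have x1 : x ≤ 1 := by nlinarith
  have y1 : y < 21 / 100 := by nlinarith
  have y2 : -21 / 100 < y := by nlinarith
  have x2 : 97 / 100 < x := by nlinarith
  exact ⟨x1, y1, x2, by nlinarith⟩

theorem num2 {a b x y s : ℝ} (u1 : 29 / 100 < a) (u2 : a < 295 / 1000) (u3 : 4 / 100 < b)
    (u4 : b < 5 / 100) (x1 : x ≤ 1) (y1 : y < 21 / 100) (x2 : 97 / 100 < x) (y3 : 9 / 100 < y)
    (s1 : 0 ≤ s) (s2 : s ≤ 1) : 0 < b + s * (52 / 100) * y ∧
    b + s * (52 / 100) * y < a + s * (52 / 100) * x ∧ b + s * (52 / 100) * y < 16 / 100 ∧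
    a + s * (52 / 100) * x < 82 / 100 ∧ 1 / 100 < a + s * (52 / 100) * x ∧
    (97 / 100 < s → 77 / 100 < a + s * (52 / 100) * x ∧ 8 / 100 < b + s * (52 / 100) * y) :=
  ⟨by nlinarith, by nlinarith, by nlinarith, by nlinarith, by nlinarith,
    fun _ => ⟨by nlinarith, by nlinarith⟩⟩

theorem num3 {a b x y : ℝ} (a1 : 77 / 100 < a) (a2 : a < 82 / 100) (a3 : 8 / 100 < b)
    (a4 : b < 16 / 100) (x2 : 97 / 100 < x) (y3 : 9 / 100 < y) :
    (1 - a) ^ 2 + (0 - b) ^ 2 < (1 / 3) ^ 2 ∧ x * (0 - b) + -y * (1 - a) < -(1 / 100) :=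
  ⟨by nlinarith, by nlinarith⟩

theorem Ok.no (h : Ok r) : False := by
  set S := fderiv ℝ (fderiv ℝ (r ∘ ps))
  obtain ⟨u, ⟨u1, u2, u3, u4⟩, uS⟩ : ∃ u : ℂ, (29 / 100 < u.re ∧ u.re < 295 / 1000 ∧ 4 / 100 < u.im ∧
      u.im < 5 / 100) ∧ (‖u‖ < 1 / 3 ∧ S u ≠ 0) := by
    set u0 : ℂ := ⟨292 / 1000, 45 / 1000⟩
    have m0 : u0 ∈ W0 := by norm_num [W0, u0, abs_lt]
    have n0 : ‖u0‖ < 1 / 3 := by
      rw [norm_eq_sqrt_sq_add_sq, Real.sqrt_lt' (by norm_num)]; norm_num [u0]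
    obtain ⟨a, b, -⟩ := h.bb m0 n0
    have a1 := abs_lt.1 (arg_lt m0.1)
    have T : Tendsto (fun s => exp (sg (Real.log ‖u0‖) s)) (𝓝[≠] (arg u0)) (𝓝 u0) := by
      have := (an_w (Real.log ‖u0‖) (arg u0)).continuousAt.tendsto
      rw [b] at this
      exact this.mono_left nhdsWithin_le_nhds
    have T1 := (continuous_re.tendsto _).comp T
    have T2 := (continuous_im.tendsto _).comp T
    obtain ⟨s, ⟨f, g⟩, ⟨g1, g2⟩, ⟨g3, g4⟩, g5, g6⟩ := (((h.sp.flat a ⟨by linarith, by linarith⟩).and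
      (T.eventually (W0_open.mem_nhds m0))).and
      (((T1.eventually (lt_mem_nhds (by norm_num [u0] : 29 / 100 < u0.re))).and
        (T1.eventually (gt_mem_nhds (by norm_num [u0] : u0.re < 295 / 1000)))).and
      (((T2.eventually (lt_mem_nhds (by norm_num [u0] : 4 / 100 < u0.im))).and
        (T2.eventually (gt_mem_nhds (by norm_num [u0] : u0.im < 5 / 100)))).and
        ((T.norm.eventually (gt_mem_nhds n0)).and (nhdsWithin_le_nhds
          (isOpen_Ioo.mem_nhds (show arg u0 ∈ Ioo (-1:ℝ) 1 from a1))))))).exists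
    refine ⟨_, ⟨g1, g2, g3, g4⟩, g5, fun e => f ?_⟩
    have := (h.bb g g5).2.2
    have p := Real.pi_gt_three
    rw [show sg (Real.log ‖exp (sg (Real.log ‖u0‖) s)‖) (arg (exp (sg (Real.log ‖u0‖) s))) =
      log (exp (sg (Real.log ‖u0‖) s)) from rfl, log_exp (by simp [sg]; linarith [g6.1])
        (by simp [sg]; linarith [g6.2])] at this
    rw [← this, show fderiv ℝ (fderiv ℝ (r ∘ ps)) _ = 0 from e]; rfl
  have mu : u ∈ W0 := ⟨by rw [abs_lt]; constructor <;> linarith,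
    by rw [abs_lt]; constructor <;> linarith, by linarith, by linarith⟩
  obtain ⟨v, v1, vS, vb, vp⟩ : ∃ v : ℂ, ‖v‖ = 1 ∧ S u v = 0 ∧
      |((starRingEnd ℂ) v * u).im| ≤ 1 / 100 ∧ 0 ≤ v.re := by
    obtain ⟨v, a, b, c⟩ := h.hit mu uS.1 uS.2
    rcases le_total 0 v.re with q | q
    · exact ⟨v, a, b, c, q⟩
    · exact ⟨-v, by rwa [norm_neg], by rw [map_neg, b, neg_zero],
        by rwa [map_neg, neg_mul, neg_im, abs_neg], by simpa using q⟩
  have n1 : v.re ^ 2 + v.im ^ 2 = 1 := by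
    rw [← Real.sqrt_eq_one, ← norm_eq_sqrt_sq_add_sq, v1]
  rw [mul_im, conj_re, conj_im, abs_le] at vb
  obtain ⟨x1, y1, x2, y3⟩ := num1 u1 u2 u3 u4 n1 vp vb
  have N := fun s => num2 (s := s) u1 u2 u3 u4 x1 y1 x2 y3
  set c : ℂ := (52 / 100 : ℝ) • v with hc
  have co : ∀ s : ℝ, (u + s • c).re = u.re + s * (52 / 100) * v.re ∧
      (u + s • c).im = u.im + s * (52 / 100) * v.im := fun s => by
    simp only [hc, add_re, add_im, smul_re, smul_im, smul_eq_mul]; constructor <;> ring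
  have m : ∀ s ∈ Icc (0:ℝ) 1, u + s • c ∈ W0 := fun s ⟨a, b⟩ => by
    simp only [W0, mem_setOf_eq, (co s).1, (co s).2]
    obtain ⟨n1, n2, n3, n4, n5, -⟩ := N s a b
    rw [abs_of_pos n1]
    exact ⟨n2, by linarith, n5, by linarith⟩
  have R := rule h.h3 (v := c) (smul_ne_zero (by norm_num) (by rintro rfl; simp at v1))
    (fun s hs => h.dv (m s hs)) uS.2 (by rw [hc, map_smul, vS, smul_zero])
  obtain ⟨s, hs, sS⟩ : ∃ s ∈ Ioo (97 / 100 : ℝ) 1, S (u + s • c) ≠ 0 := by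
    by_contra hn
    push Not at hn
    have := AnalyticOnNhd.eqOn_zero_of_preconnected_of_eventuallyEq_zero
      (f := fun s : ℝ => S (u + s • c)) (fun s hs => AnalyticAt.comp (f := fun s : ℝ => u + s • c)
        (h.dv (m s hs)).an.fderiv.fderiv (analyticAt_const.add (analyticAt_id.smul analyticAt_const)))
      isPreconnected_Icc (z₀ := 98 / 100) (by norm_num)
      (by filter_upwards [Ioo_mem_nhds (a := 97 / 100) (b := 1) (by norm_num) (by norm_num)] with s hs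
        using hn s hs)
      (left_mem_Icc.2 zero_le_one)
    exact uS.2 (by simpa using this)
  obtain ⟨s1, s2⟩ := hs
  have ms := m s ⟨by linarith, s2.le⟩
  have z := R s ⟨by linarith, s2.le⟩
  obtain ⟨-, -, a4, a2, -, n6⟩ := N s (by linarith) s2.le
  obtain ⟨a1, a3⟩ := n6 s1
  rw [← (co s).1] at a1 a2
  rw [← (co s).2] at a3 a4
  clear co m R
  generalize u + s • c = q at *
  rw [hc, map_smul, smul_eq_zero_iff_right (by norm_num)] at z
  obtain ⟨j1, j2⟩ := num3 a1 a2 a3 a4 x2 y3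
  obtain ⟨v', w1, w2, w3⟩ := h.neg.hit (W0_sub ms) (by
    rw [norm_eq_sqrt_sq_add_sq, Real.sqrt_lt' (by norm_num), sub_re, sub_im, one_re, one_im]
    exact j1) (fun e => sS (by ext a b; rw [← h.mir ms, e]))
  obtain ⟨d, K⟩ := ((h.dv ms).kr h.h3).2 sS
  have := ((K _ v1).1 z).symm.trans ((K _ w1).1 (by ext b; rw [← h.mir ms, w2]))
  rw [mul_right_inj' (by simpa using d), sq_eq_sq_iff_eq_or_eq_neg] at this
  have w4 : |((starRingEnd ℂ) v * (1 - q)).im| ≤ 1 / 100 := by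
    rcases this with rfl | rfl
    · exact w3
    · rwa [map_neg, neg_mul, neg_im, abs_neg]
  rw [mul_im, conj_re, conj_im, abs_le, sub_re, sub_im, one_re, one_im] at w4
  linarith [w4.1]

end Pool.Agent.H.MP_60a66a_gt
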